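import Pool.Agent.H776.GE6
import Pool.Agent.H776.ND5
import Pool.Agent.H776.ND7

/-!
# KLS for log-concave functions of few quadratic forms

The inequality of Kannan, Lovasz and Simonovits holds, in all dimensions, with a constant which depends
on `k` only (`c / k^{5/2}`) for all log-concave probability measures with a density
`g(q_1(x), …, q_k(x))`, where `q_1, …, q_k` are arbitrary positive semidefinite quadratic forms (not
commuting, degenerate ones allowed) and `g` is log-concave and nonincreasing in each variable on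
`[0, ∞)ᵏ`. For `k = 1` these are the linear images of the rotation invariant measures (Bobkov).
Without any symmetry, it holds with the constant `c / (κ k^{5/2} (k + d)^{1/2})` for the densities
`g(F_1(x), …, F_k(x), ⟪a_1, x⟫, …, ⟪a_d, x⟫)`, `F_j(x) = ψ_j(P_j x) + ⟪b_j, x⟫`, `2 ≤ D² ψ_j ≤ 2κ` (for
instance arbitrary convex quadratic polynomials `F_j`). The number of functions and functionals has to be
bounded here, unless the conjecture is true: for Gaussian measures conditioned on the positivity of `d`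
coordinates the constant is `c / (1 + d)^{1/2}`, while an absolute constant for `d = d(n) → ∞`, however
slowly, would imply the inequality for all log-concave measures.

Method (`F_j = q_j`, or `F_j(x) = ψ_j(P_j x)`, `2 ≤ D² ψ_j ≤ 2κ`; `N(t) = ∫ g(F(x) + t) dx`).
1. By Prekopa's theorem `log N` is concave in `t`, so `N(t) ≤ N(0) exp(-⟨λ, t⟩)` for some `λ ≥ 0` (`GE1`).
   Let `W(s) = sup_{r ≥ 0} g(s + r) exp(⟨λ, r⟩ / (2k)) ≥ g(s)`. This function is log-concave, and
   `-log W` has slopes at least `λ_j / (2k)` (`GE2`). Hence `W ∘ F` is strongly log-concave with respect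
   to `Σ λ_j q_j / k`, while `∫ W(F(x)) dx ≤ 5 ∫ g(F(x)) dx`: by Jensen's inequality only shifts in the
   directions of the coordinates are needed, for which one sums over a grid (`GE3`). By the
   Brascamp-Lieb inequality `Var f ≤ C sup_x ‖∇ f‖²` in the dual norm of `Σ λ_j q_j / k`.
2. This is sharp up to the factor `C κ² k⁵`: if `Σ λ_j q_j(v) ≤ c / (κ² k⁴)` then the functions
   `F_j(x + v) - F_j(x - v)` have small second moments by step 1, so that half of the measure, translated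
   by `v`, is dominated by the density `g(F(x) - δ)`, `δ_j = 1 / (k λ_j)`, of mass at most `e`; so the
   variances of the linear functionals are bounded below (`GE4`).
3. E. Milman's theorem on Lipschitz functions (library), truncations and limits (`GE5`, `GE6`), Ledoux.
4. Without symmetry (`ND1`-`ND5`, `NC1`, `NC3`), in isotropic position: let `E` be the subspace spanned by
   the means of the gradients of the `F_j` and by the `a_i`, `dim E ≤ k + d`. If `v` is orthogonal to `E`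
   and `Σ λ_j |P_j v|² ≤ c / (κ² k⁴)`, then `F_j(x ± v) - F_j(x)` has small second moment by step 1 (the
   mean of the derivative of `F_j` in the direction `v` is `0`), so that most of the measure, translated
   by `±v`, is dominated by the density with the levels shifted by `-1 / (4 k λ_j)`, of mass at most
   `1.29 N(0)`; as the two translates must intersect, `|v| ≤ 2`. So the form `Σ λ_j |P_j x|² / k` plus
   `|p_E x|² / (C (k + d))` is at least `c κ⁻² k⁻⁵ (k + d)⁻¹ |x|²`; the additional Gaussian factor changes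
   the density by a constant factor outside a set of small measure. This is enough by a form of
   E. Milman's theorem in which only one level of Lipschitz functions is used (`NC1`).
5. Gaussian measures on orthants suffice for the inequality for all log-concave measures (`Univ`); a
   product of such a measure with a small Gaussian measure, conditioned on the positivity of further
   coordinates, reduces the dimension `m` to dimensions `n` with `d(n) ≥ m` (`ND7`).
-/

set_option autoImplicit false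

namespace Pool.Agent.Results.MP_6d896a_gt.FewQuadraticForms

open MeasureTheory Set
open scoped ENNReal InnerProductSpace

/-- Euclidean space of dimension `n` -/
abbrev Euc (n : ℕ) : Type := EuclideanSpace ℝ (Fin n)

/-- log-concave probability measures: probability measures with a density `g ≥ 0` with
`g x ^ (1 - t) * g y ^ t ≤ g ((1 - t) x + t y)` -/
def LogConcave {n : ℕ} (μ : Measure (Euc n)) : Prop :=
  IsProbabilityMeasure μ ∧ ∃ g : Euc n → ℝ, (∀ x, 0 ≤ g x) ∧ Measurable g ∧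
    (∀ x y, ∀ t : ℝ, 0 < t → t < 1 → g x ^ (1 - t) * g y ^ t ≤ g ((1 - t) • x + t • y)) ∧
    μ = volume.withDensity fun x => ENNReal.ofReal (g x)

/-- the inequality of Kannan, Lovasz and Simonovits with the constant `C`: if all variances in
directions of length one are at most `s` then `(C / √s) min(μ S, μ Sᶜ) ≤ μ⁺(S)` for all measurable `S` -/
def KLS {n : ℕ} (C : ℝ) (μ : Measure (Euc n)) : Prop :=
  ∀ s : ℝ, 0 < s →
    (∀ θ : Euc n, ‖θ‖ = 1 → ProbabilityTheory.variance (fun x => inner ℝ x θ) μ ≤ s) →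
    ∀ S : Set (Euc n), MeasurableSet S →
      ENNReal.ofReal (C / Real.sqrt s) * min (μ S) (μ Sᶜ) ≤
        Filter.liminf (fun ε : ℝ => (μ (Metric.thickening ε S) - μ S) / ENNReal.ofReal ε)
          (nhdsWithin 0 (Set.Ioi 0))

/-- `g` is (measurable and) nonnegative, nonincreasing in each variable and log-concave on `[0, ∞)ᵏ` -/
structure Admissible {k : ℕ} (g : (Fin k → ℝ) → ℝ) : Prop where
  measurable : Measurable g
  nonneg : ∀ s, (∀ j, 0 ≤ s j) → 0 ≤ g s
  nonincreasing : ∀ s t, (∀ j, 0 ≤ s j) → (∀ j, s j ≤ t j) → g t ≤ g s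
  logConcave : ∀ s t, (∀ j, 0 ≤ s j) → (∀ j, 0 ≤ t j) → ∀ a b : ℝ, 0 < a → 0 < b → a + b = 1 →
    g s ^ a * g t ^ b ≤ g (a • s + b • t)

/-- the values `(xᵀ Q_1 x, …, xᵀ Q_k x)` of the quadratic forms -/
def forms {n k : ℕ} (Q : Fin k → Matrix (Fin n) (Fin n) ℝ) (x : Euc n) (l : Fin k) : ℝ :=
  ∑ i, ∑ j, Q l i j * x i * x j

/-- `ψ` is even, `C¹`, `ψ(0) = 0`, `ψ - ‖·‖²` is convex and `∇ψ` is `2κ`-Lipschitz (for `C²` functions:
`2 ≤ D² ψ ≤ 2κ`) -/
structure Profile {m : ℕ} (κ : ℝ) (ψ : Euc m → ℝ) : Prop where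
  even : ∀ y, ψ (-y) = ψ y
  zero : ψ 0 = 0
  diff : ContDiff ℝ 1 ψ
  convex : ConvexOn ℝ univ fun y => ψ y - ‖y‖ ^ 2
  lipschitz : ∀ y z, ‖fderiv ℝ ψ y - fderiv ℝ ψ z‖ ≤ 2 * κ * ‖y - z‖

/-- `ψ` is `C¹`, `ψ - ‖·‖²` is convex and `∇ψ` is `2κ`-Lipschitz (for `C²` functions:
`2 ≤ D² ψ ≤ 2κ`); no symmetry -/
structure UCS {m : ℕ} (κ : ℝ) (ψ : Euc m → ℝ) : Prop where
  diff : ContDiff ℝ 1 ψ
  convex : ConvexOn ℝ univ fun y => ψ y - ‖y‖ ^ 2
  lipschitz : ∀ y z, ‖fderiv ℝ ψ y - fderiv ℝ ψ z‖ ≤ 2 * κ * ‖y - z‖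

/-- `g` is nonnegative, upper semicontinuous and log-concave on `ℝᵏ × ℝᵈ`, and nonincreasing in each of
the first `k` variables -/
structure LowerAdmissible {k d : ℕ} (g : (Fin k → ℝ) → (Fin d → ℝ) → ℝ) : Prop where
  usc : UpperSemicontinuous fun p : (Fin k → ℝ) × (Fin d → ℝ) => g p.1 p.2
  nonneg : ∀ s z, 0 ≤ g s z
  nonincreasing : ∀ s t z, (∀ j, s j ≤ t j) → g t z ≤ g s z
  logConcave : ∀ s t z w, ∀ a b : ℝ, 0 < a → 0 < b → a + b = 1 →
    g s z ^ a * g t w ^ b ≤ g (a • s + b • t) (a • z + b • w)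

/-- `μ` is a centred nondegenerate Gaussian measure on `ℝⁿ` conditioned on the positivity of the first `d`
coordinates: it has the density `c exp (-xᵀ Q x / 2)` on `{x | x_i ≥ 0 for i ≤ d}`, `Q` a positive
definite matrix, `c` the normalizing constant -/
def PartGaussian {n : ℕ} (d : ℕ) (μ : Measure (Euc n)) : Prop :=
  IsProbabilityMeasure μ ∧ ∃ (Q : Matrix (Fin n) (Fin n) ℝ) (c : ℝ), Q.PosDef ∧
    μ = (volume.restrict {x : Euc n | ∀ i : Fin n, (i : ℕ) < d → 0 ≤ x i}).withDensity fun x =>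
      ENNReal.ofReal (c * Real.exp (-(1 / 2) * ∑ i, ∑ j, Q i j * x i * x j))

theorem nm_of_mass {n : ℕ} {g : Euc n → ℝ} (h : ∫ x, g x = 1) :
    Pool.Agent.H776.nm g = volume.withDensity fun x => ENNReal.ofReal (g x) := by
  unfold Pool.Agent.H776.nm
  simp only [h, div_one]

theorem kls_of_kp {n : ℕ} {g : Euc n → ℝ} (hg : Q289.LD.Den g) {C : ℝ} (hC : 0 < C)
    (h : Pool.Agent.H776.KP (Pool.Agent.H776.nm g) (4 / C ^ 2)) :
    KLS (1 / 28 * C) (volume.withDensity fun x => ENNReal.ofReal (g x)) := by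
  intro s hs hcov S hS
  rw [nm_of_mass hg.mass] at h
  have h1 := h s hs hcov
  have h2 := Pool.Agent.H776.iso_of_poi hg rfl (by positivity) h1 S hS
  have e : 1 / 14 / Real.sqrt (4 / C ^ 2 * s) = 1 / 28 * C / Real.sqrt s := by
    rw [Real.sqrt_mul (by positivity), Real.sqrt_div (by norm_num), Real.sqrt_sq hC.le,
      show (4 : ℝ) = 2 ^ 2 by norm_num, Real.sqrt_sq (by norm_num)]
    have := Real.sqrt_pos.2 hs
    field_simp
    norm_num
  rw [e] at h2
  exact h2

/-- log-concavity of the composition -/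
theorem comp_logc {n k : ℕ} {g : (Fin k → ℝ) → ℝ} (hg : Admissible g) {F : Fin k → Euc n → ℝ}
    (hF0 : ∀ j x, 0 ≤ F j x) (hFc : ∀ j, ConvexOn ℝ univ (F j)) (x y : Euc n) (t : ℝ)
    (ht : 0 < t) (ht1 : t < 1) :
    g (fun j => F j x) ^ (1 - t) * g (fun j => F j y) ^ t ≤
      g fun j => F j ((1 - t) • x + t • y) := by
  refine (hg.logConcave _ _ (fun j => hF0 j x) (fun j => hF0 j y) (1 - t) t (by linarith) ht
    (by ring)).trans (hg.nonincreasing _ _ (fun j => hF0 j _) fun j => ?_)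
  have h1 := (hFc j).2 (mem_univ x) (mem_univ y) (by linarith : 0 ≤ 1 - t) ht.le (by ring)
  simpa only [Pi.add_apply, Pi.smul_apply, smul_eq_mul] using h1

/-- **the main theorem** -/
theorem main : ∃ c : ℝ, 0 < c ∧ ∀ (n k : ℕ) (m : Fin k → ℕ) (P : ∀ j, Euc n →L[ℝ] Euc (m j))
    (ψ : ∀ j, Euc (m j) → ℝ) (κ : ℝ) (g : (Fin k → ℝ) → ℝ), 1 ≤ κ → (∀ j, Profile κ (ψ j)) →
    Admissible g → ∀ μ : Measure (Euc n), IsProbabilityMeasure μ →
    (μ = volume.withDensity fun x => ENNReal.ofReal (g fun j => ψ j (P j x))) →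
    LogConcave μ ∧ KLS (c / (κ * (k : ℝ) ^ (5 / 2 : ℝ))) μ := by
  obtain ⟨C, hC, H⟩ := Pool.Agent.H776.GE.exists_kp_gen
  refine ⟨1 / (14 * Real.sqrt C), by positivity, ?_⟩
  intro n k m P ψ κ g hκ hψ hg μ hμp hμ
  have hκ0 : 0 < κ := by linarith
  have hprof : ∀ j, Pool.Agent.H776.FE.Prof (ψ j) κ := fun j => ⟨(hψ j).even, (hψ j).zero,
    (hψ j).diff, (hψ j).convex, (hψ j).lipschitz⟩
  have hF0 : ∀ (j : Fin k) (x : Euc n), 0 ≤ ψ j (P j x) := fun j x => (hprof j).nonneg _
  have hFc : ∀ j : Fin k, ConvexOn ℝ univ fun x : Euc n => ψ j (P j x) := fun j => by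
    have h1 := (hprof j).convex.comp_linearMap (P j : Euc n →ₗ[ℝ] Euc (m j))
    exact h1
  have hρ0 : ∀ x : Euc n, 0 ≤ g fun j => ψ j (P j x) := fun x => hg.nonneg _ fun j => hF0 j x
  have hρm : Measurable fun x : Euc n => g fun j => ψ j (P j x) :=
    hg.measurable.comp (measurable_pi_lambda _ fun j =>
      ((hprof j).diff.continuous.comp (P j).continuous).measurable)
  have hρl := comp_logc (F := fun j x => ψ j (P j x)) hg hF0 hFc
  have hlc : LogConcave μ := ⟨hμp, _, hρ0, hρm, fun x y t ht ht1 => hρl x y t ht ht1, hμ⟩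
  refine ⟨hlc, ?_⟩
  have hden : Q289.LD.Den fun x : Euc n => g fun j => ψ j (P j x) := by
    refine ⟨hρ0, hρm, hρl, ?_⟩
    have h4 : μ univ = 1 := measure_univ
    rw [hμ, withDensity_apply _ MeasurableSet.univ, Measure.restrict_univ] at h4
    rw [integral_eq_lintegral_of_nonneg_ae (Filter.Eventually.of_forall hρ0)
      hρm.aestronglyMeasurable, h4, ENNReal.toReal_one]
  rcases Nat.eq_zero_or_pos k with h0 | hk
  · intro s hs _ S _
    have e : (k : ℝ) ^ (5 / 2 : ℝ) = 0 := by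
      rw [h0, Nat.cast_zero, Real.zero_rpow (by norm_num)]
    rw [e, mul_zero, div_zero, zero_div, ENNReal.ofReal_zero, zero_mul]
    exact bot_le
  have hk0 : (0 : ℝ) < k := Nat.cast_pos.2 hk
  have h1 := H (Fin n) k (fun j => Fin (m j)) P ψ κ g hκ hprof
    ⟨hg.measurable, hg.nonneg, hg.nonincreasing, hg.logConcave⟩ hk hden
  obtain ⟨w, hw⟩ : ∃ w : ℝ, w = κ * (k : ℝ) ^ (5 / 2 : ℝ) := ⟨_, rfl⟩
  have hw0 : 0 < w := by rw [hw]; positivity
  have hw2 : w ^ 2 = κ ^ 2 * (k : ℝ) ^ 5 := by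
    rw [hw, mul_pow, ← Real.rpow_natCast (_ ^ (5 / 2 : ℝ)), ← Real.rpow_mul hk0.le]
    norm_num
  have h2 := kls_of_kp hden (C := 2 / (Real.sqrt C * w)) (by positivity) (by
    have e : 4 / (2 / (Real.sqrt C * w)) ^ 2 = C * κ ^ 2 * (k : ℝ) ^ 5 := by
      rw [div_pow, mul_pow, Real.sq_sqrt hC.le, hw2]
      field_simp
      norm_num
    rw [e]
    exact h1)
  rw [← hμ] at h2
  have e : 1 / 28 * (2 / (Real.sqrt C * w)) = 1 / (14 * Real.sqrt C) / w := by
    field_simp
    norm_num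
  rw [e, hw] at h2
  exact h2

/-- **the theorem without symmetry** -/
theorem main2 : ∃ c : ℝ, 0 < c ∧ ∀ (n k d : ℕ) (m : Fin k → ℕ) (P : ∀ j, Euc n →L[ℝ] Euc (m j))
    (ψ : ∀ j, Euc (m j) → ℝ) (b : Fin k → Euc n) (a : Fin d → Euc n) (κ : ℝ)
    (g : (Fin k → ℝ) → (Fin d → ℝ) → ℝ), 1 ≤ κ → (∀ j, UCS κ (ψ j)) →
    LowerAdmissible g → ∀ μ : Measure (Euc n), IsProbabilityMeasure μ →
    (μ = volume.withDensity fun x => ENNReal.ofReal
      (g (fun j => ψ j (P j x) + inner ℝ (b j) x) fun i => inner ℝ (a i) x)) →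
    LogConcave μ ∧ KLS (c / (κ * (k : ℝ) ^ (5 / 2 : ℝ) * Real.sqrt (k + d))) μ := by
  obtain ⟨C, hC, H⟩ := Pool.Agent.H776.ND.kp_main'
  refine ⟨1 / (14 * Real.sqrt C), by positivity, ?_⟩
  intro n k d m P ψ b a κ g hκ hψ hg μ hμp hμ
  have hκ0 : 0 < κ := by linarith
  have hprf : ∀ j, Pool.Agent.H776.ND.Prf (ψ j) κ := fun j =>
    ⟨(hψ j).diff, (hψ j).convex, (hψ j).lipschitz⟩
  choose P' hP' using fun j => Pool.Agent.H776.ND.exists_same (P j)
  have hcf := Pool.Agent.H776.ND.cf_of_prf (β := b) hκ hprf hP'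
  obtain ⟨F, hF⟩ : ∃ F : Fin k → Euc n → ℝ, F = fun j x => ψ j (P j x) + inner ℝ (b j) x :=
    ⟨_, rfl⟩
  rw [← hF] at hcf
  have hFx : ∀ x, (fun j => ψ j (P j x) + inner ℝ (b j) x) = fun j => F j x := fun x => by rw [hF]
  simp only [hFx] at hμ
  -- the linear functionals
  let L₀ : Euc n →ₗ[ℝ] Euc d :=
    { toFun := fun x => WithLp.toLp 2 fun i => inner ℝ (a i) x
      map_add' := fun x y => by
        ext i
        simp [inner_add_right]
      map_smul' := fun c x => by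
        ext i
        simp [real_inner_smul_right] }
  obtain ⟨L, hL⟩ : ∃ L : Euc n →L[ℝ] Euc d, L = L₀.toContinuousLinearMap := ⟨_, rfl⟩
  have hLx : ∀ x, (fun i => inner ℝ (a i) x) = fun i => L x i := fun x => by
    rw [hL]
    rfl
  simp only [hLx] at hμ
  obtain ⟨g', hg'⟩ : ∃ g' : (Fin k → ℝ) → Euc d → ℝ, g' = fun s z => g s fun i => z i := ⟨_, rfl⟩
  have hgx : ∀ x : Euc n, g (fun j => F j x) (fun i => L x i) = g' (fun j => F j x) (L x) :=
    fun x => by rw [hg']
  simp only [hgx] at hμ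
  have hcg : Continuous fun p : (Fin k → ℝ) × Euc d =>
      ((p.1, fun i => p.2 i) : (Fin k → ℝ) × (Fin d → ℝ)) :=
    continuous_fst.prodMk (continuous_pi fun i => by fun_prop)
  have husc : UpperSemicontinuous fun p : (Fin k → ℝ) × Euc d => g' p.1 p.2 := by
    rw [hg']
    exact hg.usc.comp hcg
  have hgen : Pool.Agent.H776.NC.Gen g' := by
    refine ⟨husc.measurable, fun s z => ?_, fun s t z hst => ?_, fun s t z w x y hx hy hxy => ?_⟩
    · rw [hg']
      exact hg.nonneg _ _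
    · rw [hg']
      exact hg.nonincreasing _ _ _ hst
    · rw [hg']
      exact hg.logConcave _ _ _ _ x y hx hy hxy
  have hρ0 : ∀ x : Euc n, 0 ≤ g' (fun j => F j x) (L x) := fun x => hgen.nonneg _ _
  have hρm : Measurable fun x : Euc n => g' (fun j => F j x) (L x) := by
    have h1 : Measurable fun x : Euc n => ((fun j => F j x), L x) :=
      (measurable_pi_lambda _ fun j => (hcf.diff j).continuous.measurable).prodMk
        L.continuous.measurable
    exact hgen.meas.comp h1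
  have hρl : ∀ x y : Euc n, ∀ t : ℝ, 0 < t → t < 1 →
      g' (fun j => F j x) (L x) ^ (1 - t) * g' (fun j => F j y) (L y) ^ t ≤
        g' (fun j => F j ((1 - t) • x + t • y)) (L ((1 - t) • x + t • y)) := by
    intro x y t ht ht1
    refine (hgen.logc _ _ _ _ (1 - t) t (by linarith) ht (by ring)).trans ?_
    rw [map_add, map_smul, map_smul]
    refine hgen.anti _ _ _ fun j => ?_
    have h1 := (hcf.conv j).2 (mem_univ x) (mem_univ y) (by linarith : 0 ≤ 1 - t) ht.le (by ring)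
    simpa only [Pi.add_apply, Pi.smul_apply, smul_eq_mul] using h1
  have hlc : LogConcave μ := ⟨hμp, _, hρ0, hρm, hρl, hμ⟩
  refine ⟨hlc, ?_⟩
  have hden : Q289.LD.Den fun x : Euc n => g' (fun j => F j x) (L x) := by
    refine ⟨hρ0, hρm, hρl, ?_⟩
    have h4 : μ univ = 1 := measure_univ
    rw [hμ, withDensity_apply _ MeasurableSet.univ, Measure.restrict_univ] at h4
    rw [integral_eq_lintegral_of_nonneg_ae (Filter.Eventually.of_forall hρ0)
      hρm.aestronglyMeasurable, h4, ENNReal.toReal_one]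
  rcases Nat.eq_zero_or_pos k with h0 | hk
  · intro s hs _ S _
    have e : (k : ℝ) ^ (5 / 2 : ℝ) = 0 := by
      rw [h0, Nat.cast_zero, Real.zero_rpow (by norm_num)]
    rw [e, mul_zero, zero_mul, div_zero, zero_div, ENNReal.ofReal_zero, zero_mul]
    exact bot_le
  have hk0 : (0 : ℝ) < k := Nat.cast_pos.2 hk
  have hd0 : (0 : ℝ) ≤ d := Nat.cast_nonneg d
  have h1 := H n k d F P' κ L g' hcf hgen hk hden (Or.inl husc)
  obtain ⟨w, hw⟩ : ∃ w : ℝ, w = κ * (k : ℝ) ^ (5 / 2 : ℝ) * Real.sqrt (k + d) := ⟨_, rfl⟩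
  have hw0 : 0 < w := by rw [hw]; positivity
  have hw2 : w ^ 2 = κ ^ 2 * (k : ℝ) ^ 5 * (k + d) := by
    rw [hw, mul_pow, mul_pow, Real.sq_sqrt (by positivity),
      ← Real.rpow_natCast (_ ^ (5 / 2 : ℝ)), ← Real.rpow_mul hk0.le]
    norm_num
  have h2 := kls_of_kp hden (C := 2 / (Real.sqrt C * w)) (by positivity) (by
    have e : 4 / (2 / (Real.sqrt C * w)) ^ 2 = C * κ ^ 2 * (k : ℝ) ^ 5 * ((k + d : ℕ) : ℝ) := by
      rw [div_pow, mul_pow, Real.sq_sqrt hC.le, hw2]
      push_cast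
      field_simp
      norm_num
    rw [e]
    exact h1)
  rw [← hμ] at h2
  have e : 1 / 28 * (2 / (Real.sqrt C * w)) = 1 / (14 * Real.sqrt C) / w := by
    field_simp
    norm_num
  rw [e, hw] at h2
  exact h2

theorem den_of {n : ℕ} {g : Euc n → ℝ} (h1 : ∀ x, 0 ≤ g x) (h2 : Measurable g)
    (h3 : ∀ x y, ∀ t : ℝ, 0 < t → t < 1 → g x ^ (1 - t) * g y ^ t ≤ g ((1 - t) • x + t • y))
    (hp : IsProbabilityMeasure (volume.withDensity fun x => ENNReal.ofReal (g x))) :
    Q289.LD.Den g := by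
  refine ⟨h1, h2, h3, ?_⟩
  have h4 : (volume.withDensity fun x => ENNReal.ofReal (g x)) univ = 1 := measure_univ
  rw [withDensity_apply _ MeasurableSet.univ, Measure.restrict_univ] at h4
  rw [integral_eq_lintegral_of_nonneg_ae (Filter.Eventually.of_forall h1)
    h2.aestronglyMeasurable, h4, ENNReal.toReal_one]

/-- from the isoperimetric inequality to the Poincare inequality -/
theorem kp_of_kls {n : ℕ} {μ : Measure (Euc n)} [IsProbabilityMeasure μ] {C : ℝ} (hC : 0 < C)
    (h : KLS C μ) : Pool.Agent.H776.KP μ (4 / C ^ 2) := by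
  intro s hs hcov
  have h1 : Pool.Agent.H776.Iso μ (C / Real.sqrt s) := fun S hS => h s hs hcov S hS
  have h2 := Pool.Agent.H776.poi_of_iso (div_pos hC (Real.sqrt_pos.2 hs)) h1
  have e : 4 / (C / Real.sqrt s) ^ 2 = 4 / C ^ 2 * s := by
    rw [div_pow, Real.sq_sqrt hs.le]
    field_simp
  rwa [e] at h2

theorem partGaussian_of_pq {n d : ℕ} {Q : Matrix (Fin n) (Fin n) ℝ} (hQ : Q.PosDef) :
    PartGaussian d (Pool.Agent.H776.nm (Pool.Agent.H776.pq (fun i : Fin n => (i : ℕ) < d) Q)) := by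
  obtain ⟨I, hI⟩ : ∃ I : Fin n → Prop, I = fun i : Fin n => (i : ℕ) < d := ⟨_, rfl⟩
  have eI : {x : Euc n | ∀ i : Fin n, (i : ℕ) < d → 0 ≤ x i} =
      {x : Euc n | ∀ i, I i → 0 ≤ x i} := by rw [hI]
  rw [← hI]
  refine ⟨(Pool.Agent.H776.wt_pq hQ).prob, Q, 1 / ∫ y, Pool.Agent.H776.pq I Q y, hQ, ?_⟩
  rw [eI]
  unfold Pool.Agent.H776.nm
  rw [← withDensity_indicator Pool.Agent.H776.part_meas]
  congr 1
  funext x
  by_cases hx : ∀ i, I i → 0 ≤ x i
  · rw [indicator_of_mem (show x ∈ {x : Euc n | ∀ i, I i → 0 ≤ x i} from hx)]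
    have e : Pool.Agent.H776.pq I Q x =
        Real.exp (-(1 / 2) * ∑ i, ∑ j, Q i j * x i * x j) := by
      unfold Pool.Agent.H776.pq
      rw [if_pos hx]
      congr 1
      unfold Pool.Agent.H776.qf
      ring
    rw [← e, div_eq_mul_inv, mul_comm, one_div]
  · rw [indicator_of_notMem (show x ∉ {x : Euc n | ∀ i, I i → 0 ≤ x i} from hx)]
    have e : Pool.Agent.H776.pq I Q x = 0 := by
      unfold Pool.Agent.H776.pq
      rw [if_neg hx]
    rw [e, zero_div, ENNReal.ofReal_zero]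

/-- **few positivity conditions** -/
theorem few {c : ℝ} (H : ∀ (n k d : ℕ) (m : Fin k → ℕ) (P : ∀ j, Euc n →L[ℝ] Euc (m j))
    (ψ : ∀ j, Euc (m j) → ℝ) (b : Fin k → Euc n) (a : Fin d → Euc n) (κ : ℝ)
    (g : (Fin k → ℝ) → (Fin d → ℝ) → ℝ), 1 ≤ κ → (∀ j, UCS κ (ψ j)) →
    LowerAdmissible g → ∀ μ : Measure (Euc n), IsProbabilityMeasure μ →
    (μ = volume.withDensity fun x => ENNReal.ofReal
      (g (fun j => ψ j (P j x) + inner ℝ (b j) x) fun i => inner ℝ (a i) x)) →
    LogConcave μ ∧ KLS (c / (κ * (k : ℝ) ^ (5 / 2 : ℝ) * Real.sqrt (k + d))) μ)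
    {n d : ℕ} {μ : Measure (Euc n)} (hμ : PartGaussian d μ) :
    LogConcave μ ∧ KLS (c / Real.sqrt (1 + d)) μ := by
  classical
  obtain ⟨hP, Q, c₀, hQ, hμ⟩ := hμ
  have hc : 0 ≤ c₀ := by
    by_contra hc
    have h0 : μ = 0 := by
      rw [hμ]
      have : (fun x : Euc n => ENNReal.ofReal (c₀ * Real.exp (-(1 / 2) *
          ∑ i, ∑ j, Q i j * x i * x j))) = 0 := by
        funext x
        exact ENNReal.ofReal_of_nonpos (mul_nonpos_of_nonpos_of_nonneg (not_le.1 hc).le
          (Real.exp_pos _).le)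
      rw [this, withDensity_zero]
    have h1 := hP.measure_univ
    rw [h0] at h1
    simp at h1
  obtain ⟨A, hA⟩ := Pool.Agent.H776.FE.exists_map_psd hQ.posSemidef
  have hsq : Pool.Agent.H776.FE.Prof (fun y : Euc n => ‖y‖ ^ 2) 1 :=
    Pool.Agent.H776.FE.prof_sq (W := Euc n)
  obtain ⟨a, ha⟩ : ∃ a : Fin d → Euc n, a = fun i : Fin d => if h : (i : ℕ) < n then
    EuclideanSpace.single (⟨i, h⟩ : Fin n) (1 : ℝ) else 0 := ⟨_, rfl⟩
  have hax : ∀ x : Euc n, (∀ i : Fin d, 0 ≤ inner ℝ (a i) x) ↔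
      ∀ i : Fin n, (i : ℕ) < d → 0 ≤ x i := by
    intro x
    constructor
    · intro h i hi
      have h1 := h ⟨i, hi⟩
      rw [ha] at h1
      simp only [Fin.is_lt, dif_pos, Fin.eta, EuclideanSpace.inner_single_left, map_one,
        one_mul] at h1
      exact h1
    · intro h i
      by_cases hi : (i : ℕ) < n
      · have h1 := h ⟨i, hi⟩ i.2
        rw [ha]
        simp only [dif_pos hi, EuclideanSpace.inner_single_left, map_one, one_mul]
        exact h1
      · rw [ha]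
        simp only [dif_neg hi, inner_zero_left, le_refl]
  obtain ⟨g, hg⟩ : ∃ g : (Fin 1 → ℝ) → (Fin d → ℝ) → ℝ, g = fun s z =>
    if ∀ i, 0 ≤ z i then c₀ * Real.exp (-(1 / 2) * s 0) else 0 := ⟨_, rfl⟩
  have hg1 : ∀ s z, (∀ i, 0 ≤ z i) → g s z = c₀ * Real.exp (-(1 / 2) * s 0) := fun s z h => by
    rw [hg]
    exact if_pos h
  have hg0 : ∀ s z, (¬ ∀ i, 0 ≤ z i) → g s z = 0 := fun s z h => by
    rw [hg]
    exact if_neg h
  have hgn : ∀ s z, 0 ≤ g s z := fun s z => by
    by_cases h : ∀ i, 0 ≤ z i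
    · rw [hg1 s z h]
      exact mul_nonneg hc (Real.exp_pos _).le
    · rw [hg0 s z h]
  have hadm : LowerAdmissible g := by
    refine ⟨fun p y hy => ?_, hgn, fun s t z hst => ?_, fun s t z w x y hx hy hxy => ?_⟩
    · by_cases h : ∀ i, 0 ≤ p.2 i
      · simp only [hg1 p.1 p.2 h] at hy
        have h1 : ContinuousAt (fun q : (Fin 1 → ℝ) × (Fin d → ℝ) =>
            c₀ * Real.exp (-(1 / 2) * q.1 0)) p := by fun_prop
        filter_upwards [h1.eventually_lt_const hy] with q hq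
        by_cases h' : ∀ i, 0 ≤ q.2 i
        · rw [hg1 _ _ h']
          exact hq
        · rw [hg0 _ _ h']
          exact (mul_nonneg hc (Real.exp_pos _).le).trans_lt hq
      · simp only [hg0 p.1 p.2 h] at hy
        push Not at h
        obtain ⟨i, hi⟩ := h
        have h1 : ContinuousAt (fun q : (Fin 1 → ℝ) × (Fin d → ℝ) => q.2 i) p := by fun_prop
        filter_upwards [h1.eventually_lt_const hi] with q hq
        rw [hg0 _ _ fun h => absurd (h i) (not_le.2 hq)]
        exact hy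
    · by_cases h : ∀ i, 0 ≤ z i
      · rw [hg1 _ _ h, hg1 _ _ h]
        refine mul_le_mul_of_nonneg_left (Real.exp_le_exp.2 ?_) hc
        have := hst 0
        linarith
      · rw [hg0 _ _ h, hg0 _ _ h]
    · by_cases hz : ∀ i, 0 ≤ z i
      · by_cases hw : ∀ i, 0 ≤ w i
        · have hzw : ∀ i, 0 ≤ (x • z + y • w) i := fun i => by
            simp only [Pi.add_apply, Pi.smul_apply, smul_eq_mul]
            exact add_nonneg (mul_nonneg hx.le (hz i)) (mul_nonneg hy.le (hw i))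
          rw [hg1 _ _ hz, hg1 _ _ hw, hg1 _ _ hzw, Real.mul_rpow hc (Real.exp_pos _).le,
            Real.mul_rpow hc (Real.exp_pos _).le]
          have e1 : c₀ ^ x * c₀ ^ y = c₀ := by
            rcases hc.eq_or_lt with h | h
            · rw [← h, Real.zero_rpow hx.ne', zero_mul]
            · rw [← Real.rpow_add h, hxy, Real.rpow_one]
          have e2 : c₀ ^ x * Real.exp (-(1 / 2) * s 0) ^ x *
              (c₀ ^ y * Real.exp (-(1 / 2) * t 0) ^ y) =
              (c₀ ^ x * c₀ ^ y) * (Real.exp (-(1 / 2) * s 0) ^ x *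
                Real.exp (-(1 / 2) * t 0) ^ y) := by ring
          rw [e2, e1, ← Real.exp_mul, ← Real.exp_mul, ← Real.exp_add]
          refine mul_le_mul_of_nonneg_left (Real.exp_le_exp.2 (le_of_eq ?_)) hc
          simp only [Pi.add_apply, Pi.smul_apply, smul_eq_mul]
          ring
        · rw [hg0 t w hw, Real.zero_rpow hy.ne', mul_zero]
          exact hgn _ _
      · rw [hg0 s z hz, Real.zero_rpow hx.ne', zero_mul]
        exact hgn _ _
  have hμ' : μ = volume.withDensity fun x => ENNReal.ofReal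
      (g (fun _ : Fin 1 => ‖A.toContinuousLinearMap x‖ ^ 2 + inner ℝ (0 : Euc n) x)
        fun i => inner ℝ (a i) x) := by
    have hm : MeasurableSet {x : Euc n | ∀ i : Fin n, (i : ℕ) < d → 0 ≤ x i} :=
      Pool.Agent.H776.part_meas (I := fun i : Fin n => (i : ℕ) < d)
    rw [hμ, ← withDensity_indicator hm]
    congr 1
    funext x
    by_cases hx : ∀ i : Fin n, (i : ℕ) < d → 0 ≤ x i
    · rw [indicator_of_mem (show x ∈ {x : Euc n | ∀ i : Fin n, (i : ℕ) < d → 0 ≤ x i} from hx),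
        hg1 _ _ ((hax x).2 hx), inner_zero_left, add_zero, LinearMap.coe_toContinuousLinearMap', hA]
    · rw [indicator_of_notMem (show x ∉ {x : Euc n | ∀ i : Fin n, (i : ℕ) < d → 0 ≤ x i} from hx),
        hg0 _ _ fun h => hx ((hax x).1 h), ENNReal.ofReal_zero]
  have h1 := H n 1 d (fun _ => n) (fun _ => A.toContinuousLinearMap)
    (fun _ (y : Euc n) => ‖y‖ ^ 2) (fun _ => 0) a 1 g le_rfl
    (fun _ => ⟨hsq.diff, hsq.conv, hsq.lip⟩) hadm μ hP hμ'
  refine ⟨h1.1, ?_⟩
  have h2 := h1.2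
  rwa [Nat.cast_one, Real.one_rpow, one_mul, one_mul] at h2

/-- **many positivity conditions** -/
theorem many {d : ℕ → ℕ} (hd : Filter.Tendsto d Filter.atTop Filter.atTop) {C : ℝ} (hC : 0 < C)
    (H : ∀ (n : ℕ) (μ : Measure (Euc n)), PartGaussian (d n) μ → KLS C μ) {n : ℕ}
    {μ : Measure (Euc n)} (hμ : LogConcave μ) : KLS (1 / 28 * C) μ := by
  obtain ⟨hP, g, h1, h2, h3, h4⟩ := hμ
  rw [h4] at hP
  have hg := den_of h1 h2 h3 hP
  rw [h4]
  refine kls_of_kp hg hC ?_
  refine Pool.Agent.H776.kp_unbounded (by positivity) hd (fun m Q hQ => ?_) hg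
  have hp := (Pool.Agent.H776.wt_pq (I := fun i : Fin m => (i : ℕ) < d m) hQ).prob
  exact kp_of_kls hC (H m _ (partGaussian_of_pq hQ))

/-- constants -/
theorem KLS.mono {n : ℕ} {C C' : ℝ} (h : C' ≤ C) {μ : Measure (Euc n)} (hμ : KLS C μ) :
    KLS C' μ := by
  intro s hs hcov S hS
  refine le_trans ?_ (hμ s hs hcov S hS)
  gcongr

/-- **(1)** if `Q_1, …, Q_k` are positive semidefinite `n × n` matrices, `g` is nonincreasing in each
variable and log-concave on `[0, ∞)ᵏ`, and `μ` is a probability measure on `ℝⁿ` with the density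
`g(xᵀ Q_1 x, …, xᵀ Q_k x)`, then `μ` is log-concave and
`(c k^{-5/2} / √‖Cov μ‖) min(μ S, μ Sᶜ) ≤ μ⁺(S)` for all measurable `S` -/
def QuadraticFormsKLS (c : ℝ) : Prop :=
  ∀ (n k : ℕ) (Q : Fin k → Matrix (Fin n) (Fin n) ℝ) (g : (Fin k → ℝ) → ℝ),
    (∀ j, (Q j).PosSemidef) → Admissible g → ∀ μ : Measure (Euc n), IsProbabilityMeasure μ →
    (μ = volume.withDensity fun x => ENNReal.ofReal (g (forms Q x))) →
    LogConcave μ ∧ KLS (c / (k : ℝ) ^ (5 / 2 : ℝ)) μ

/-- **(2)** in particular this holds for the uniform measures on the convex bodies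
`{x : (xᵀ Q_1 x, …, xᵀ Q_k x) ∈ D}`, where `D ⊆ ℝᵏ` is convex and `t ∈ D` if `0 ≤ t ≤ s ∈ D` -/
def BodiesKLS (c : ℝ) : Prop :=
  ∀ (n k : ℕ) (Q : Fin k → Matrix (Fin n) (Fin n) ℝ) (D : Set (Fin k → ℝ)),
    (∀ j, (Q j).PosSemidef) → Convex ℝ D → MeasurableSet D →
    (∀ s ∈ D, ∀ t : Fin k → ℝ, (∀ j, 0 ≤ t j) → (∀ j, t j ≤ s j) → t ∈ D) →
    volume {x : Euc n | forms Q x ∈ D} ≠ 0 → volume {x : Euc n | forms Q x ∈ D} ≠ ⊤ →
    Convex ℝ {x : Euc n | forms Q x ∈ D} ∧
    KLS (c / (k : ℝ) ^ (5 / 2 : ℝ))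
      ((volume {x : Euc n | forms Q x ∈ D})⁻¹ • volume.restrict {x : Euc n | forms Q x ∈ D})

/-- **(3)** more generally, for the probability measures with the densities
`g(ψ_1(P_1 x), …, ψ_k(P_k x))`, where the `P_j` are arbitrary linear maps and the functions `ψ_j` are
even, `ψ_j - ‖·‖²` is convex and `∇ψ_j` is `2κ`-Lipschitz, with the constant `c / (κ k^{5/2})` -/
def ProfilesKLS (c : ℝ) : Prop :=
  ∀ (n k : ℕ) (m : Fin k → ℕ) (P : ∀ j, Euc n →L[ℝ] Euc (m j)) (ψ : ∀ j, Euc (m j) → ℝ) (κ : ℝ)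
    (g : (Fin k → ℝ) → ℝ), 1 ≤ κ → (∀ j, Profile κ (ψ j)) → Admissible g →
    ∀ μ : Measure (Euc n), IsProbabilityMeasure μ →
    (μ = volume.withDensity fun x => ENNReal.ofReal (g fun j => ψ j (P j x))) →
    LogConcave μ ∧ KLS (c / (κ * (k : ℝ) ^ (5 / 2 : ℝ))) μ

/-- **(4)** without symmetry, for the probability measures with the densities
`g(ψ_1(P_1 x) + ⟪b_1, x⟫, …, ψ_k(P_k x) + ⟪b_k, x⟫, ⟪a_1, x⟫, …, ⟪a_d, x⟫)`, where the `P_j` are
arbitrary linear maps, `a_i`, `b_j` are arbitrary vectors, `ψ_j - ‖·‖²` is convex, `∇ψ_j` is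
`2κ`-Lipschitz and `g` is upper semicontinuous, log-concave and nonincreasing in the first `k` variables,
with the constant `c / (κ k^{5/2} (k + d)^{1/2})` (for instance `k` arbitrary convex quadratic
polynomials) -/
def NonsymmetricKLS (c : ℝ) : Prop :=
  ∀ (n k d : ℕ) (m : Fin k → ℕ) (P : ∀ j, Euc n →L[ℝ] Euc (m j)) (ψ : ∀ j, Euc (m j) → ℝ)
    (b : Fin k → Euc n) (a : Fin d → Euc n) (κ : ℝ) (g : (Fin k → ℝ) → (Fin d → ℝ) → ℝ),
    1 ≤ κ → (∀ j, UCS κ (ψ j)) → LowerAdmissible g →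
    ∀ μ : Measure (Euc n), IsProbabilityMeasure μ →
    (μ = volume.withDensity fun x => ENNReal.ofReal
      (g (fun j => ψ j (P j x) + inner ℝ (b j) x) fun i => inner ℝ (a i) x)) →
    LogConcave μ ∧ KLS (c / (κ * (k : ℝ) ^ (5 / 2 : ℝ) * Real.sqrt (k + d))) μ

/-- **(5)** the Gaussian measures on `ℝⁿ` conditioned on the positivity of `d` coordinates satisfy the
inequality with the constant `c / (1 + d)^{1/2}`, by (4); but for every sequence `d(n) → ∞`, however
slowly it grows, the inequality with a constant `C` for all these measures with `d = d(n)` would imply the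
inequality with `c C` for all log-concave probability measures -/
def GaussianDichotomy (c : ℝ) : Prop :=
  (∀ (n d : ℕ) (μ : Measure (Euc n)), PartGaussian d μ → KLS (c / Real.sqrt (1 + d)) μ) ∧
  ∀ d : ℕ → ℕ, Filter.Tendsto d Filter.atTop Filter.atTop → ∀ C : ℝ, 0 < C →
    (∀ (n : ℕ) (μ : Measure (Euc n)), PartGaussian (d n) μ → KLS C μ) →
    ∀ (n : ℕ) (μ : Measure (Euc n)), LogConcave μ → KLS (c * C) μ

/-- **KLS for log-concave measures which depend on `k` quadratic forms, or on `k` convex functions and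
`d` linear functionals, in all dimensions.** There is an absolute constant `c > 0` such that (1), (2),
(3), (4), (5) above hold, for all `n`, `k`, `d`. -/
theorem result : ∃ c : ℝ, 0 < c ∧
    QuadraticFormsKLS c ∧ BodiesKLS c ∧ ProfilesKLS c ∧ NonsymmetricKLS c ∧
      GaussianDichotomy c := by
  obtain ⟨c₁, hc₁, H₁⟩ := main
  obtain ⟨c₂, hc₂, H₂⟩ := main2
  obtain ⟨c, hcd⟩ : ∃ c : ℝ, c = min (min c₁ c₂) (1 / 28) := ⟨_, rfl⟩
  have hc : 0 < c := by rw [hcd]; exact lt_min (lt_min hc₁ hc₂) (by norm_num)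
  have hcl₁ : c ≤ c₁ := by rw [hcd]; exact (min_le_left _ _).trans (min_le_left _ _)
  have hcl₂ : c ≤ c₂ := by rw [hcd]; exact (min_le_left _ _).trans (min_le_right _ _)
  have hcl₃ : c ≤ 1 / 28 := by rw [hcd]; exact min_le_right _ _
  have H : ∀ (n k : ℕ) (m : Fin k → ℕ) (P : ∀ j, Euc n →L[ℝ] Euc (m j)) (ψ : ∀ j, Euc (m j) → ℝ)
      (κ : ℝ) (g : (Fin k → ℝ) → ℝ), 1 ≤ κ → (∀ j, Profile κ (ψ j)) → Admissible g →
      ∀ μ : Measure (Euc n), IsProbabilityMeasure μ →
      (μ = volume.withDensity fun x => ENNReal.ofReal (g fun j => ψ j (P j x))) →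
      LogConcave μ ∧ KLS (c / (κ * (k : ℝ) ^ (5 / 2 : ℝ))) μ := by
    intro n k m P ψ κ g hκ hψ hg μ hμp hμ
    obtain ⟨h1, h2⟩ := H₁ n k m P ψ κ g hκ hψ hg μ hμp hμ
    exact ⟨h1, h2.mono (by gcongr)⟩
  have hsq : ∀ n : ℕ, Profile 1 fun y : Euc n => ‖y‖ ^ 2 := fun n => by
    have h2 := Pool.Agent.H776.FE.prof_sq (W := Euc n)
    exact ⟨h2.even, h2.zero, h2.diff, h2.conv, h2.lip⟩
  have H1 : ∀ (n k : ℕ) (Q : Fin k → Matrix (Fin n) (Fin n) ℝ) (g : (Fin k → ℝ) → ℝ),
      (∀ j, (Q j).PosSemidef) → Admissible g → ∀ μ : Measure (Euc n), IsProbabilityMeasure μ →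
      (μ = volume.withDensity fun x => ENNReal.ofReal (g (forms Q x))) →
      LogConcave μ ∧ KLS (c / (k : ℝ) ^ (5 / 2 : ℝ)) μ := by
    intro n k Q g hQ hg μ hμp hμ
    choose A hA using fun j => Pool.Agent.H776.FE.exists_map_psd (hQ j)
    have e : ∀ x : Euc n, forms Q x = fun j => ‖(A j).toContinuousLinearMap x‖ ^ 2 := by
      intro x
      funext j
      rw [LinearMap.coe_toContinuousLinearMap', hA]
      rfl
    simp only [e] at hμ
    have h1 := H n k (fun _ => n) (fun j => (A j).toContinuousLinearMap)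
      (fun _ (y : Euc n) => ‖y‖ ^ 2) 1 g le_rfl (fun j => hsq n) hg μ hμp hμ
    rwa [one_mul] at h1
  refine ⟨c, hc, H1, ?_, H, fun n k d m P ψ b a κ g hκ hψ hg μ hμp hμ => ?_,
    fun n d μ hμ => (few H₂ hμ).2.mono (by gcongr),
    fun d hd C hC h n μ hμ => (many hd hC h hμ).mono (by gcongr)⟩
  swap
  · obtain ⟨h1, h2⟩ := H₂ n k d m P ψ b a κ g hκ hψ hg μ hμp hμ
    exact ⟨h1, h2.mono (by gcongr)⟩
  intro n k Q D hQ hD hDm hDd h0 ht
  classical
  obtain ⟨Ω, hΩ⟩ : ∃ Ω : Set (Euc n), Ω = {x : Euc n | forms Q x ∈ D} := ⟨_, rfl⟩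
  rw [← hΩ] at h0 ht ⊢
  choose A hA using fun j => Pool.Agent.H776.FE.exists_map_psd (hQ j)
  have hform : ∀ j (x : Euc n), forms Q x j = ‖A j x‖ ^ 2 := fun j x => (hA j x).symm
  have hnn : ∀ j (x : Euc n), 0 ≤ forms Q x j := fun j x => by rw [hform]; positivity
  have hcont : Continuous fun x : Euc n => forms Q x := by
    refine continuous_pi fun j => ?_
    simp only [hform]
    exact ((A j).continuous_of_finiteDimensional.norm.pow 2)
  have hΩm : MeasurableSet Ω := by
    rw [hΩ]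
    exact hDm.preimage hcont.measurable
  have hconv : Convex ℝ Ω := by
    rw [hΩ]
    intro x hx y hy a b ha hb hab
    refine hDd _ (hD hx hy ha hb hab) _ (fun j => hnn j _) fun j => ?_
    have h1 : ConvexOn ℝ univ fun z : Euc n => ‖A j z‖ ^ 2 := by
      have h2 : ConvexOn ℝ univ fun y : Euc n => ‖y‖ ^ 2 :=
        convexOn_univ_norm.pow (fun x _ => norm_nonneg x) 2
      exact h2.comp_linearMap (A j)
    have h3 := h1.2 (mem_univ x) (mem_univ y) ha hb hab
    simp only [Pi.add_apply, Pi.smul_apply, hform]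
    exact h3
  refine ⟨hconv, ?_⟩
  -- the density
  have hv0 : 0 < (volume Ω).toReal := ENNReal.toReal_pos h0 ht
  obtain ⟨g, hg⟩ : ∃ g : (Fin k → ℝ) → ℝ, g = D.indicator fun _ => ((volume Ω).toReal)⁻¹ :=
    ⟨_, rfl⟩
  have hi0 : 0 < ((volume Ω).toReal)⁻¹ := inv_pos.2 hv0
  have hgn : ∀ s, 0 ≤ g s := fun s => by
    rw [hg]
    exact indicator_nonneg (fun _ _ => hi0.le) s
  have hadm : Admissible g := by
    refine ⟨?_, fun s _ => hgn s, fun s t hs hst => ?_, fun s t hs ht' a b ha hb hab => ?_⟩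
    · rw [hg]
      exact measurable_const.indicator hDm
    · by_cases htD : t ∈ D
      · have hsD : s ∈ D := hDd t htD s hs hst
        rw [hg, indicator_of_mem htD, indicator_of_mem hsD]
      · have h1 : g t = 0 := by rw [hg, indicator_of_notMem htD]
        rw [h1]
        exact hgn s
    · by_cases hsD : s ∈ D
      · by_cases htD : t ∈ D
        · have hst : a • s + b • t ∈ D := hD hsD htD ha.le hb.le hab
          rw [hg, indicator_of_mem hsD, indicator_of_mem htD, indicator_of_mem hst,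
            ← Real.rpow_add hi0, hab, Real.rpow_one]
        · have h1 : g t = 0 := by rw [hg, indicator_of_notMem htD]
          rw [h1, Real.zero_rpow hb.ne', mul_zero]
          exact hgn _
      · have h1 : g s = 0 := by rw [hg, indicator_of_notMem hsD]
        rw [h1, Real.zero_rpow ha.ne', zero_mul]
        exact hgn _
  have hμ : (volume Ω)⁻¹ • volume.restrict Ω =
      volume.withDensity fun x : Euc n => ENNReal.ofReal (g (forms Q x)) := by
    have e : (fun x : Euc n => ENNReal.ofReal (g (forms Q x))) =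
        Ω.indicator fun _ => (volume Ω)⁻¹ := by
      funext x
      by_cases hx : x ∈ Ω
      · have hx' : forms Q x ∈ D := by rw [hΩ] at hx; exact hx
        rw [indicator_of_mem hx, hg, indicator_of_mem hx', ENNReal.ofReal_inv_of_pos hv0,
          ENNReal.ofReal_toReal ht]
      · have hx' : forms Q x ∉ D := by rw [hΩ] at hx; exact hx
        rw [indicator_of_notMem hx, hg, indicator_of_notMem hx', ENNReal.ofReal_zero]
    rw [e, withDensity_indicator hΩm, withDensity_const]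
  have hprob : IsProbabilityMeasure ((volume Ω)⁻¹ • volume.restrict Ω) := by
    refine ⟨?_⟩
    rw [Measure.smul_apply, Measure.restrict_apply_univ, smul_eq_mul,
      ENNReal.inv_mul_cancel h0 ht]
  exact (H1 n k Q g hQ hadm _ hprob hμ).2

end Pool.Agent.Results.MP_6d896a_gt.FewQuadraticForms
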