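import Pool.Agent.H776.Univ

/-!
# KLS is equivalent to KLS for Gaussian vectors with grid interactions, conditioned to be positive

Let `𝒢` be a family of finite graphs which has all square grids as minors; by the grid theorem of
Robertson and Seymour this means that the tree width of the graphs of `𝒢` is not bounded. Examples are
the square grids themselves. We show that the inequality of Kannan, Lovasz and Simonovits for all
log-concave probability measures (the frozen statement) follows, with an absolute loss, from its special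
case of the measures with densities `c exp (-xᵀ Q x / 2)` on the positive orthants, `Q` positive
definite and supported on the diagonal and the edges of a graph of `𝒢`: the laws of centred Gaussian
Markov random fields on the graphs of `𝒢`, conditioned to be nonnegative. In particular Gaussian vectors
indexed by the points of a square grid, with nearest neighbour interactions only, conditioned to be
nonnegative, are as hard as all log-concave measures.

Method (all steps are limits of images under contractions, where the covariance in the directions which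
are lost tends to zero).
1. Log-concave densities are limits of images of centred Gaussian measures on orthants, with arbitrary
  positive definite matrices (modules `H776.AllLC`, `Slack`, `Cent2`).
2. Networks (`H776.Net`, `Net2`, `kp_net`): let `L` be a matrix with nonnegative entries, `κ` visible and
  `J` hidden nodes, `S` a quadratic form on the nodes with `S(y, L y) = Q(y)`, and let `P` be a matrix with
  `P (y, L y) = 0` for all `y` and injective on the hidden nodes. Then the Gaussian measure on the orthant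
  with the form `Q` is the limit of images of those with the forms
  `S(y, z / a) + |P(y, z / a)|² / a²`, `a → 0`: the hidden coordinates `z` are approximately `a L y`, so
  that their covariances vanish.
3. Wires and crossings: let the row `j` of an `N × N` array of nodes `H(j,i)` carry the value `y_j`, and
  the column `i` of nodes `V(j,i)` the value `y_i`, and let `C(j,i)` carry `y_j + y_i`. The penalties
  `(C(j,i) - H(j,i) - V(j,i))²`, `(C(j,i) - H(j,i) - V(j+1,i))²`, `(C(j,i) - V(j,i) - H(j,i+1))²` and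
  `(H(i,i) - V(i,i))²` enforce this, with local interactions; `Q_{ij} y_i y_j` is realized as a coupling of
  `H(i,j)` and `V(i,j)`.
4. Graph minors: if `G₁` is a minor of `G₂` then the measures for `G₁` are limits of images of those for
  `G₂` (hidden nodes are copies, connected by strong springs). The graph of step 3 is a minor of the
  `3N × 3N` grid, with the blocks `V V V / H C V / H C C` in place of the triples `H, V, C`.
-/

set_option autoImplicit false

namespace Pool.Agent.Results.MP_6d896a_gt.GridMinorGaussians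

open MeasureTheory Set
open scoped ENNReal InnerProductSpace

/-- Euclidean space of dimension `n` -/
abbrev Euc (n : ℕ) : Type := EuclideanSpace ℝ (Fin n)

/-- log-concave probability measures: probability measures with a density `g ≥ 0` with
`g x ^ (1 - t) * g y ^ t ≤ g ((1 - t) x + t y)` -/
def LogConcave {n : ℕ} (μ : Measure (Euc n)) : Prop :=
  IsProbabilityMeasure μ ∧ ∃ g : Euc n → ℝ, (∀ x, 0 ≤ g x) ∧ Measurable g ∧
    (∀ x y, ∀ t : ℝ, 0 < t → t < 1 → g x ^ (1 - t) * g y ^ t ≤ g ((1 - t) • x + t • y)) ∧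
    μ = volume.withDensity fun x => ENNReal.ofReal (g x)

/-- `μ` is a centred Gaussian Markov random field on the graph `G`, conditioned to be nonnegative: it has
the density `c exp (-xᵀ Q x / 2)` on `{x | ∀ i, 0 ≤ x i}`, `Q` a positive definite matrix with
`Q i j = 0` if `i ≠ j` are not adjacent, `c` the normalizing constant -/
def OrthantNormal {n : ℕ} (G : SimpleGraph (Fin n)) (μ : Measure (Euc n)) : Prop :=
  IsProbabilityMeasure μ ∧ ∃ (Q : Matrix (Fin n) (Fin n) ℝ) (c : ℝ), Q.PosDef ∧
    (∀ i j, i ≠ j → ¬ G.Adj i j → Q i j = 0) ∧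
    μ = (volume.restrict {x : Euc n | ∀ i, 0 ≤ x i}).withDensity fun x =>
      ENNReal.ofReal (c * Real.exp (-(1 / 2) * ∑ i, ∑ j, Q i j * x i * x j))

/-- the square grid with `k × k` vertices -/
def grid (k : ℕ) : SimpleGraph (Fin k × Fin k) where
  Adj p q := (p.1 = q.1 ∧ ((p.2 : ℕ) + 1 = q.2 ∨ (q.2 : ℕ) + 1 = p.2)) ∨
    (p.2 = q.2 ∧ ((p.1 : ℕ) + 1 = q.1 ∨ (q.1 : ℕ) + 1 = p.1))
  symm := ⟨fun p q h => by
    rcases h with ⟨h1, h2⟩ | ⟨h1, h2⟩
    · exact Or.inl ⟨h1.symm, h2.symm⟩
    · exact Or.inr ⟨h1.symm, h2.symm⟩⟩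
  loopless := ⟨fun p h => by
    rcases h with ⟨h1, h2⟩ | ⟨h1, h2⟩ <;> omega⟩

/-- `H` is a minor of `G`: there are disjoint connected sets `{u | f u = some v}` of vertices of `G`, for
all vertices `v` of `H`, and the sets of adjacent vertices of `H` are joined by edges of `G` -/
def HasMinor {V₁ V₂ : Type} (G : SimpleGraph V₂) (H : SimpleGraph V₁) : Prop :=
  ∃ f : V₂ → Option V₁, (∀ v, (G.induce {u | f u = some v}).Connected) ∧
    ∀ a b, H.Adj a b → ∃ u v, f u = some a ∧ f v = some b ∧ G.Adj u v

/-- all square grids are minors of graphs of the family `𝒢` (by the grid theorem of Robertson and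
Seymour: the graphs of `𝒢` have unbounded tree width) -/
def Rich (𝒢 : (n : ℕ) → Set (SimpleGraph (Fin n))) : Prop :=
  ∀ k, ∃ n, ∃ G ∈ 𝒢 n, HasMinor G (grid k)

/-- the inequality of Kannan, Lovasz and Simonovits with the constant `C`: if all variances in
directions of length one are at most `s` then `(C / √s) min(μ S, μ Sᶜ) ≤ μ⁺(S)` for all measurable `S` -/
def KLS {n : ℕ} (C : ℝ) (μ : Measure (Euc n)) : Prop :=
  ∀ s : ℝ, 0 < s →
    (∀ θ : Euc n, ‖θ‖ = 1 → ProbabilityTheory.variance (fun x => inner ℝ x θ) μ ≤ s) →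
    ∀ S : Set (Euc n), MeasurableSet S →
      ENNReal.ofReal (C / Real.sqrt s) * min (μ S) (μ Sᶜ) ≤
        Filter.liminf (fun ε : ℝ => (μ (Metric.thickening ε S) - μ S) / ENNReal.ofReal ε)
          (nhdsWithin 0 (Set.Ioi 0))

theorem den_of {n : ℕ} {g : Euc n → ℝ} (h1 : ∀ x, 0 ≤ g x) (h2 : Measurable g)
    (h3 : ∀ x y, ∀ t : ℝ, 0 < t → t < 1 → g x ^ (1 - t) * g y ^ t ≤ g ((1 - t) • x + t • y))
    (hp : IsProbabilityMeasure (volume.withDensity fun x => ENNReal.ofReal (g x))) :
    Q289.LD.Den g := by
  refine ⟨h1, h2, h3, ?_⟩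
  have h4 : (volume.withDensity fun x => ENNReal.ofReal (g x)) univ = 1 := measure_univ
  rw [withDensity_apply _ MeasurableSet.univ, Measure.restrict_univ] at h4
  rw [integral_eq_lintegral_of_nonneg_ae (Filter.Eventually.of_forall h1)
    h2.aestronglyMeasurable, h4, ENNReal.toReal_one]

theorem nm_of_mass {n : ℕ} {g : Euc n → ℝ} (h : ∫ x, g x = 1) :
    Pool.Agent.H776.nm g = volume.withDensity fun x => ENNReal.ofReal (g x) := by
  unfold Pool.Agent.H776.nm
  simp only [h, div_one]

/-- from the isoperimetric inequality to the Poincare inequality -/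
theorem kp_of_kls {n : ℕ} {μ : Measure (Euc n)} [IsProbabilityMeasure μ] {C : ℝ} (hC : 0 < C)
    (h : KLS C μ) : Pool.Agent.H776.KP μ (4 / C ^ 2) := by
  intro s hs hcov
  have h1 : Pool.Agent.H776.Iso μ (C / Real.sqrt s) := fun S hS => h s hs hcov S hS
  have h2 := Pool.Agent.H776.poi_of_iso (div_pos hC (Real.sqrt_pos.2 hs)) h1
  have e : 4 / (C / Real.sqrt s) ^ 2 = 4 / C ^ 2 * s := by
    rw [div_pow, Real.sq_sqrt hs.le]
    field_simp
  rwa [e] at h2

theorem kls_of_kp {n : ℕ} {g : Euc n → ℝ} (hg : Q289.LD.Den g) {C : ℝ} (hC : 0 < C)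
    (h : Pool.Agent.H776.KP (Pool.Agent.H776.nm g) (4 / C ^ 2)) :
    KLS (1 / 28 * C) (volume.withDensity fun x => ENNReal.ofReal (g x)) := by
  intro s hs hcov S hS
  rw [nm_of_mass hg.mass] at h
  have h1 := h s hs hcov
  have h2 := Pool.Agent.H776.iso_of_poi hg rfl (by positivity) h1 S hS
  have e : 1 / 14 / Real.sqrt (4 / C ^ 2 * s) = 1 / 28 * C / Real.sqrt s := by
    rw [Real.sqrt_mul (by positivity), Real.sqrt_div (by norm_num), Real.sqrt_sq hC.le,
      show (4 : ℝ) = 2 ^ 2 by norm_num, Real.sqrt_sq (by norm_num)]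
    have := Real.sqrt_pos.2 hs
    field_simp
    norm_num
  rw [e] at h2
  exact h2

theorem orthantNormal_of_gq {n : ℕ} {G : SimpleGraph (Fin n)} {Q : Matrix (Fin n) (Fin n) ℝ}
    (hQ : Q.PosDef) (hs : Pool.Agent.H776.Supp G Q) :
    OrthantNormal G (Pool.Agent.H776.nm (Pool.Agent.H776.gq Q)) := by
  classical
  refine ⟨(Pool.Agent.H776.wt_gq hQ).prob, Q, 1 / ∫ y, Pool.Agent.H776.gq Q y, hQ, hs, ?_⟩
  unfold Pool.Agent.H776.nm
  rw [← withDensity_indicator Pool.Agent.H776.orth_meas]
  congr 1
  funext x
  by_cases hx : ∀ i, 0 ≤ x i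
  · rw [indicator_of_mem (show x ∈ {x : Euc n | ∀ i, 0 ≤ x i} from hx)]
    have e : Pool.Agent.H776.gq Q x =
        Real.exp (-(1 / 2) * ∑ i, ∑ j, Q i j * x i * x j) := by
      unfold Pool.Agent.H776.gq
      rw [if_pos hx]
      congr 1
      unfold Pool.Agent.H776.qf
      ring
    rw [← e, div_eq_mul_inv, mul_comm, one_div]
  · rw [indicator_of_notMem (show x ∉ {x : Euc n | ∀ i, 0 ≤ x i} from hx)]
    have e : Pool.Agent.H776.gq Q x = 0 := by
      unfold Pool.Agent.H776.gq
      rw [if_neg hx]
    rw [e, zero_div, ENNReal.ofReal_zero]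

theorem grid_eq (k : ℕ) : grid k = Pool.Agent.H776.grid k := rfl

/-- **Gaussian Markov random fields on graphs with grid minors, conditioned to be nonnegative, are as hard
as all log-concave measures** -/
theorem main {𝒢 : (n : ℕ) → Set (SimpleGraph (Fin n))} (hr : Rich 𝒢) {C : ℝ} (hC : 0 < C)
    (H : ∀ (n : ℕ), ∀ G ∈ 𝒢 n, ∀ μ : Measure (Euc n), OrthantNormal G μ → KLS C μ) {n : ℕ}
    {μ : Measure (Euc n)} (hμ : LogConcave μ) : KLS (1 / 28 * C) μ := by
  obtain ⟨hP, g, h1, h2, h3, h4⟩ := hμ
  rw [h4] at hP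
  have hg := den_of h1 h2 h3 hP
  rw [h4]
  refine kls_of_kp hg hC ?_
  refine Pool.Agent.H776.kp_rich (by positivity) 𝒢 (fun k => hr k) (fun m G hG Q hQ hs => ?_) hg
  have hp := (Pool.Agent.H776.wt_gq hQ).prob
  exact kp_of_kls hC (H m G hG _ (orthantNormal_of_gq hQ hs))

/-- convexity of the quadratic form -/
theorem qf_convex {n : ℕ} {Q : Matrix (Fin n) (Fin n) ℝ} (hQ : Q.PosDef) (x y : Euc n) {t : ℝ}
    (ht : 0 ≤ t) (ht1 : t ≤ 1) :
    ∑ i, ∑ j, Q i j * ((1 - t) • x + t • y) i * ((1 - t) • x + t • y) j ≤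
      (1 - t) * (∑ i, ∑ j, Q i j * x i * x j) + t * ∑ i, ∑ j, Q i j * y i * y j := by
  have h0 : 0 ≤ ∑ i, ∑ j, Q i j * (x i - y i) * (x j - y j) := by
    have h1 := hQ.posSemidef.dotProduct_mulVec_nonneg (fun i => x i - y i)
    have e : star (fun i => x i - y i) ⬝ᵥ Q.mulVec (fun i => x i - y i) =
        ∑ i, ∑ j, Q i j * (x i - y i) * (x j - y j) := by
      simp only [dotProduct, Matrix.mulVec, star_trivial, Finset.mul_sum]
      exact Finset.sum_congr rfl fun i _ => Finset.sum_congr rfl fun j _ => by ring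
    rwa [e] at h1
  have e1 : ∑ i, ∑ j, Q i j * ((1 - t) • x + t • y) i * ((1 - t) • x + t • y) j =
      (1 - t) * (∑ i, ∑ j, Q i j * x i * x j) + t * (∑ i, ∑ j, Q i j * y i * y j) -
        t * (1 - t) * ∑ i, ∑ j, Q i j * (x i - y i) * (x j - y j) := by
    simp only [Finset.mul_sum, ← Finset.sum_add_distrib, ← Finset.sum_sub_distrib]
    refine Finset.sum_congr rfl fun i _ => Finset.sum_congr rfl fun j _ => ?_
    simp only [PiLp.add_apply, PiLp.smul_apply, smul_eq_mul]
    ring
  rw [e1]
  have := mul_nonneg (mul_nonneg ht (sub_nonneg.2 ht1)) h0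
  linarith

theorem logConcave_of_orthantNormal {n : ℕ} {G : SimpleGraph (Fin n)} {μ : Measure (Euc n)}
    (h : OrthantNormal G μ) : LogConcave μ := by
  classical
  obtain ⟨hP, Q, c, hQ, -, hμ⟩ := h
  have hm : MeasurableSet {x : Euc n | ∀ i, 0 ≤ x i} := Pool.Agent.H776.orth_meas
  have hc : 0 ≤ c := by
    by_contra hc
    have h0 : μ = 0 := by
      rw [hμ]
      have : (fun x : Euc n => ENNReal.ofReal (c * Real.exp (-(1 / 2) *
          ∑ i, ∑ j, Q i j * x i * x j))) = 0 := by
        funext x
        exact ENNReal.ofReal_of_nonpos (mul_nonpos_of_nonpos_of_nonneg (not_le.1 hc).le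
          (Real.exp_pos _).le)
      rw [this, withDensity_zero]
    have h1 := hP.measure_univ
    rw [h0] at h1
    simp at h1
  refine ⟨hP, ({x : Euc n | ∀ i, 0 ≤ x i}).indicator fun x => c * Real.exp (-(1 / 2) *
    ∑ i, ∑ j, Q i j * x i * x j), fun x => indicator_nonneg (fun x _ => by positivity) x, ?_, ?_, ?_⟩
  · exact (by fun_prop : Measurable fun x : Euc n => c * Real.exp (-(1 / 2) *
      ∑ i, ∑ j, Q i j * x i * x j)).indicator hm
  · intro x y t ht ht1
    by_cases hx : ∀ i, 0 ≤ x i
    · by_cases hy : ∀ i, 0 ≤ y i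
      · have hxy : ∀ i, 0 ≤ ((1 - t) • x + t • y) i := fun i => by
          simp only [PiLp.add_apply, PiLp.smul_apply, smul_eq_mul]
          exact add_nonneg (mul_nonneg (by linarith) (hx i)) (mul_nonneg ht.le (hy i))
        rw [indicator_of_mem (show x ∈ {x : Euc n | ∀ i, 0 ≤ x i} from hx),
          indicator_of_mem (show y ∈ {x : Euc n | ∀ i, 0 ≤ x i} from hy),
          indicator_of_mem (show (1 - t) • x + t • y ∈ {x : Euc n | ∀ i, 0 ≤ x i} from hxy)]
        rw [Real.mul_rpow hc (Real.exp_pos _).le, Real.mul_rpow hc (Real.exp_pos _).le]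
        have e1 : c ^ (1 - t) * c ^ t = c := by
          rcases hc.eq_or_lt with h | h
          · rw [← h, Real.zero_rpow ht.ne', mul_zero]
          · rw [← Real.rpow_add h, sub_add_cancel, Real.rpow_one]
        have h1 := qf_convex hQ x y ht.le ht1.le
        calc _ = (c ^ (1 - t) * c ^ t) * (Real.exp (-(1 / 2) * ∑ i, ∑ j, Q i j * x i * x j) ^ (1 - t) *
              Real.exp (-(1 / 2) * ∑ i, ∑ j, Q i j * y i * y j) ^ t) := by ring
          _ ≤ _ := by
            rw [e1, ← Real.exp_mul, ← Real.exp_mul, ← Real.exp_add]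
            refine mul_le_mul_of_nonneg_left (Real.exp_le_exp.2 ?_) hc
            linarith
      · rw [indicator_of_notMem (show y ∉ {x : Euc n | ∀ i, 0 ≤ x i} from hy),
          Real.zero_rpow ht.ne', mul_zero]
        exact indicator_nonneg (fun x _ => by positivity) _
    · rw [indicator_of_notMem (show x ∉ {x : Euc n | ∀ i, 0 ≤ x i} from hx),
        Real.zero_rpow (by linarith), zero_mul]
      exact indicator_nonneg (fun x _ => by positivity) _
  · rw [hμ, ← withDensity_indicator hm]
    congr 1
    funext x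
    by_cases hx : x ∈ {x : Euc n | ∀ i, 0 ≤ x i}
    · rw [indicator_of_mem hx, indicator_of_mem hx]
    · rw [indicator_of_notMem hx, indicator_of_notMem hx, ENNReal.ofReal_zero]

/-- the square grids form a family with all square grids as minors -/
theorem rich_grids : Rich fun n => {G | ∃ k, Nonempty (G ≃g grid k)} := by
  intro k
  refine ⟨k * k, (grid k).comap finProdFinEquiv.symm, ⟨k, ⟨SimpleGraph.Iso.comap _ _⟩⟩,
    fun u => some (finProdFinEquiv.symm u), fun v => ?_, fun a b h => ?_⟩
  · have h1 : {u | some (finProdFinEquiv.symm u) = some v} = {finProdFinEquiv v} := by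
      ext u
      simp only [mem_ofPred_eq, Option.some.injEq, mem_singleton_iff]
      exact Equiv.symm_apply_eq _
    rw [h1]
    have : Nonempty ({finProdFinEquiv v} : Set (Fin (k * k))) := ⟨⟨_, rfl⟩⟩
    exact ⟨SimpleGraph.Preconnected.of_subsingleton⟩
  · refine ⟨finProdFinEquiv a, finProdFinEquiv b, ?_, ?_, ?_⟩
    · simp
    · simp
    · simpa using h

/-- **The KLS conjecture is equivalent to its case of nonnegative Gaussian fields with nearest neighbour
interactions on square grids**, and on every family `𝒢` of graphs which has all square grids as minors.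
There is an absolute constant `c > 0` such that for all such families `𝒢`: if the inequality of Kannan,
Lovasz and Simonovits holds with the constant `C` for the centred nondegenerate Gaussian measures with the
matrices `Q` (inverse covariances) supported on graphs of `𝒢`, conditioned to the positive orthants, then
it holds with the constant `c C` for all log-concave probability measures on all `ℝⁿ`. So the conjecture is
equivalent to the conjecture for these measures. The square grids are such a family. -/
theorem result :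
    (∃ c : ℝ, 0 < c ∧ ∀ 𝒢 : (n : ℕ) → Set (SimpleGraph (Fin n)), Rich 𝒢 → ∀ C : ℝ, 0 < C →
      (∀ n, ∀ G ∈ 𝒢 n, ∀ μ : Measure (Euc n), OrthantNormal G μ → KLS C μ) →
        ∀ (n : ℕ) (μ : Measure (Euc n)), LogConcave μ → KLS (c * C) μ) ∧
    (∀ 𝒢 : (n : ℕ) → Set (SimpleGraph (Fin n)), Rich 𝒢 →
      ((∃ C : ℝ, 0 < C ∧ ∀ (n : ℕ) (μ : Measure (Euc n)), LogConcave μ → KLS C μ) ↔
        ∃ C : ℝ, 0 < C ∧
          ∀ n, ∀ G ∈ 𝒢 n, ∀ μ : Measure (Euc n), OrthantNormal G μ → KLS C μ)) ∧
    Rich fun n => {G | ∃ k, Nonempty (G ≃g grid k)} :=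
  ⟨⟨1 / 28, by norm_num, fun _ hr _ hC H _ _ hμ => main hr hC H hμ⟩,
    fun _ hr => ⟨fun ⟨C, hC, H⟩ => ⟨C, hC, fun n _ _ μ hμ => H n μ (logConcave_of_orthantNormal hμ)⟩,
      fun ⟨C, hC, H⟩ => ⟨1 / 28 * C, by positivity, fun _ _ hμ => main hr hC H hμ⟩⟩,
    rich_grids⟩

end Pool.Agent.Results.MP_6d896a_gt.GridMinorGaussians
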