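import Pool.Agent.H776.TP5

/-!
# KLS is equivalent to a polynomial bound for the number of small eigenvalues

The conjecture of Kannan, Lovasz and Simonovits says that for a log-concave probability measure `μ` on `ℝⁿ`
with `Cov μ ≤ s` all nonconstant functions satisfy `Var f ≤ C s ∫ |∇ f|²`: the Laplacian of `μ` has no
eigenvalues (or spectrum) in `(0, 1 / (C s))`. We show that for this it is enough that there are at most
polynomially many eigenvalues below `1 / (C s)`: if for some fixed `D`, `B` and `C` all log-concave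
probability measures `μ` on all `ℝⁿ` satisfy the Poincare inequality with the constant `C s` for the
functions which are orthogonal in `L²(μ)` to all polynomials of degree at most `D` and to `B n^D` further
functions, which may depend on `μ` in any way, then the Kannan-Lovasz-Simonovits inequality holds for all
functions and all sets, with the Poincare constant `(D + 1) C s`. It even suffices to know this for the centred
Gaussian measures conditioned to the positive orthants.

Proof. Let `∫ f dμ = 0`. On the product of `(D + 1) M` copies of `μ`, arranged in `D + 1` groups of `M`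
copies, consider for `t : {0, …, D} → {1, …, M}` the product of the values of `f` at the copies
`(a, t a)`. These `M^(D+1)` functions are orthogonal, so are their gradients, the quotient of the
Dirichlet form and the norm is `D + 1` times the one of `f`, and they are orthogonal to the polynomials
of degree at most `D`. If `M^(D+1)` exceeds the number `B ((D + 1) M n)^D` of the exceptional functions then
some nonzero linear combination is orthogonal to all of them.
-/

set_option autoImplicit false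

namespace Pool.Agent.Results.MP_6d896a_gt.PolynomiallyManyEigenvalues

open MeasureTheory Set
open scoped ENNReal InnerProductSpace

/-- Euclidean space of dimension `n` -/
abbrev Euc (n : ℕ) : Type := EuclideanSpace ℝ (Fin n)

/-- log-concave probability measures: probability measures with a density `g ≥ 0` with
`g x ^ (1 - t) * g y ^ t ≤ g ((1 - t) x + t y)` -/
def LogConcave {n : ℕ} (μ : Measure (Euc n)) : Prop :=
  IsProbabilityMeasure μ ∧ ∃ g : Euc n → ℝ, (∀ x, 0 ≤ g x) ∧ Measurable g ∧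
    (∀ x y, ∀ t : ℝ, 0 < t → t < 1 → g x ^ (1 - t) * g y ^ t ≤ g ((1 - t) • x + t • y)) ∧
    μ = volume.withDensity fun x => ENNReal.ofReal (g x)

/-- `μ` is a centred Gaussian measure conditioned to the positive orthant: it has the density
`c exp (-xᵀ Q x / 2)` on `{x | ∀ i, 0 ≤ x i}`, `Q` a positive definite matrix, `c` the normalizing
constant -/
def OrthantNormal {n : ℕ} (μ : Measure (Euc n)) : Prop :=
  IsProbabilityMeasure μ ∧ ∃ (Q : Matrix (Fin n) (Fin n) ℝ) (c : ℝ), Q.PosDef ∧
    μ = (volume.restrict {x : Euc n | ∀ i, 0 ≤ x i}).withDensity fun x =>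
      ENNReal.ofReal (c * Real.exp (-(1 / 2) * ∑ i, ∑ j, Q i j * x i * x j))

/-- all variances of the linear functionals `x ↦ ⟪x, θ⟫`, `|θ| = 1`, are at most `s` -/
def VarLe {n : ℕ} (μ : Measure (Euc n)) (s : ℝ) : Prop :=
  ∀ θ : Euc n, ‖θ‖ = 1 → ProbabilityTheory.variance (fun x => inner ℝ x θ) μ ≤ s

/-- the inequality of Kannan, Lovasz and Simonovits with the constant `C`: if all variances in
directions of length one are at most `s` then `(C / √s) min(μ S, μ Sᶜ) ≤ μ⁺(S)` for all measurable `S` -/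
def KLS {n : ℕ} (C : ℝ) (μ : Measure (Euc n)) : Prop :=
  ∀ s : ℝ, 0 < s →
    (∀ θ : Euc n, ‖θ‖ = 1 → ProbabilityTheory.variance (fun x => inner ℝ x θ) μ ≤ s) →
    ∀ S : Set (Euc n), MeasurableSet S →
      ENNReal.ofReal (C / Real.sqrt s) * min (μ S) (μ Sᶜ) ≤
        Filter.liminf (fun ε : ℝ => (μ (Metric.thickening ε S) - μ S) / ENNReal.ofReal ε)
          (nhdsWithin 0 (Set.Ioi 0))

/-- test functions: bounded, continuously differentiable, with a bounded derivative -/
def TestFunction {n : ℕ} (f : Euc n → ℝ) : Prop :=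
  ContDiff ℝ 1 f ∧ ∃ B : ℝ, ∀ x, |f x| ≤ B ∧ ‖fderiv ℝ f x‖ ≤ B

/-- the Poincare inequality with the constant `A` modulo the polynomials of degree at most `D` and `k`
further functions: there are `g₁, …, g_k ∈ L²(μ)` such that `∫ f² dμ ≤ A ∫ |∇ f|² dμ` for all test functions
which are orthogonal to the monomials of degree at most `D` and to `g₁, …, g_k`. (In terms of the spectrum of
the Laplacian of `μ`, for `D = 0`: at most `k + 1` eigenvalues, counted with multiplicity and with the
eigenvalue `0`, are smaller than `1 / A`.) -/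
def PoincareModulo {n : ℕ} (D k : ℕ) (A : ℝ) (μ : Measure (Euc n)) : Prop :=
  ∃ g : Fin k → Euc n → ℝ, (∀ j, MemLp (g j) 2 μ) ∧ ∀ f : Euc n → ℝ, TestFunction f →
    (∀ α : Fin n → ℕ, ∑ i, α i ≤ D → ∫ x, f x * ∏ i, x i ^ α i ∂μ = 0) →
    (∀ j, ∫ x, f x * g j x ∂μ = 0) → ∫ x, f x ^ 2 ∂μ ≤ A * ∫ x, ‖fderiv ℝ f x‖ ^ 2 ∂μ

/-- the weak inequality: `PoincareModulo` with the constant `C s` if the variances are at most `s`, and with
`B n^D` exceptional functions -/
def WeakKLS {n : ℕ} (D B : ℕ) (C : ℝ) (μ : Measure (Euc n)) : Prop :=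
  ∀ s : ℝ, 0 < s → VarLe μ s → PoincareModulo D (B * n ^ D) (C * s) μ

/-- the joint law of `N` independent random vectors with the law `μ` -/
noncomputable def power {n : ℕ} (N : ℕ) (μ : Measure (Euc n)) : Measure (Euc (N * n)) :=
  (Measure.pi fun _ : Fin N => μ).map fun x =>
    WithLp.toLp 2 fun l => x (finProdFinEquiv.symm l).1 (finProdFinEquiv.symm l).2

theorem den_of {n : ℕ} {g : Euc n → ℝ} (h1 : ∀ x, 0 ≤ g x) (h2 : Measurable g)
    (h3 : ∀ x y, ∀ t : ℝ, 0 < t → t < 1 → g x ^ (1 - t) * g y ^ t ≤ g ((1 - t) • x + t • y))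
    (hp : IsProbabilityMeasure (volume.withDensity fun x => ENNReal.ofReal (g x))) :
    Q289.LD.Den g := by
  refine ⟨h1, h2, h3, ?_⟩
  have h4 : (volume.withDensity fun x => ENNReal.ofReal (g x)) univ = 1 := measure_univ
  rw [withDensity_apply _ MeasurableSet.univ, Measure.restrict_univ] at h4
  rw [integral_eq_lintegral_of_nonneg_ae (Filter.Eventually.of_forall h1)
    h2.aestronglyMeasurable, h4, ENNReal.toReal_one]

theorem nm_of_mass {n : ℕ} {g : Euc n → ℝ} (h : ∫ x, g x = 1) :
    Pool.Agent.H776.nm g = volume.withDensity fun x => ENNReal.ofReal (g x) := by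
  unfold Pool.Agent.H776.nm
  simp only [h, div_one]

/-- from the isoperimetric inequality to the Poincare inequality -/
theorem kp_of_kls {n : ℕ} {μ : Measure (Euc n)} [IsProbabilityMeasure μ] {C : ℝ} (hC : 0 < C)
    (h : KLS C μ) : Pool.Agent.H776.KP μ (4 / C ^ 2) := by
  intro s hs hcov
  have h1 : Pool.Agent.H776.Iso μ (C / Real.sqrt s) := fun S hS => h s hs hcov S hS
  have h2 := Pool.Agent.H776.poi_of_iso (div_pos hC (Real.sqrt_pos.2 hs)) h1
  have e : 4 / (C / Real.sqrt s) ^ 2 = 4 / C ^ 2 * s := by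
    rw [div_pow, Real.sq_sqrt hs.le]
    field_simp
  rwa [e] at h2

theorem kls_of_kp {n : ℕ} {g : Euc n → ℝ} (hg : Q289.LD.Den g) {D : ℝ} (hD : 0 < D)
    (h : Pool.Agent.H776.KP (Pool.Agent.H776.nm g) D) :
    KLS (1 / 14 / Real.sqrt D) (volume.withDensity fun x => ENNReal.ofReal (g x)) := by
  intro s hs hcov S hS
  rw [nm_of_mass hg.mass] at h
  have h1 := h s hs hcov
  have h2 := Pool.Agent.H776.iso_of_poi hg rfl (by positivity) h1 S hS
  have e : 1 / 14 / Real.sqrt (D * s) = 1 / 14 / Real.sqrt D / Real.sqrt s := by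
    rw [Real.sqrt_mul hD.le, div_div, div_div, div_div]
  rw [e] at h2
  exact h2

theorem testFunction_iff {n : ℕ} {f : Euc n → ℝ} :
    TestFunction f ↔ ∃ B L, Pool.Agent.H776.Tst f B L :=
  ⟨fun ⟨h, B, hB⟩ => ⟨B, B, h, fun x => (hB x).1, fun x => (hB x).2⟩,
    fun ⟨B, L, h⟩ => ⟨h.diff, max B L, fun x => ⟨(h.bdd x).trans (le_max_left _ _),
      (h.grad x).trans (le_max_right _ _)⟩⟩⟩

theorem pm_of {n : ℕ} {D k : ℕ} {A : ℝ} {μ : Measure (Euc n)} (h : PoincareModulo D k A μ) :
    Pool.Agent.H776.TP.PM D k A μ := by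
  obtain ⟨g, hg, H⟩ := h
  exact ⟨g, hg, fun f B L hf => H f (testFunction_iff.2 ⟨B, L, hf⟩)⟩

/-- **The inequality for one measure.** If the product of `(D + 1) M` copies of a log-concave probability
measure `μ` satisfies the Poincare inequality with the constant `A` modulo the polynomials of degree at
most `D` and fewer than `M^(D+1)` further functions, then `μ` satisfies the Poincare inequality with the
constant `(D + 1) A`. -/
theorem poincare_of_modulo {n : ℕ} {μ : Measure (Euc n)} (hμ : LogConcave μ) {D M k : ℕ}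
    (hk : k < M ^ (D + 1)) {A : ℝ} (hA : 0 ≤ A)
    (H : PoincareModulo D k A (power ((D + 1) * M) μ)) {f : Euc n → ℝ} (hf : TestFunction f) :
    ∫ x, f x ^ 2 ∂μ - (∫ x, f x ∂μ) ^ 2 ≤ (D + 1) * A * ∫ x, ‖fderiv ℝ f x‖ ^ 2 ∂μ := by
  obtain ⟨hP, g, h1, h2, h3, h4⟩ := hμ
  have hP' := hP
  rw [h4] at hP'
  obtain ⟨B, L, hf'⟩ := testFunction_iff.1 hf
  exact Pool.Agent.H776.TP.poi_of_pm (den_of h1 h2 h3 hP') h4 hk hA (pm_of H) f B L hf'

/-- covariance of the powers -/
theorem varLe_power {n : ℕ} {μ : Measure (Euc n)} (hμ : LogConcave μ) {s : ℝ} (h : VarLe μ s)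
    (r M : ℕ) : VarLe (power (r * M) μ) s := by
  obtain ⟨hP, g, h1, h2, h3, h4⟩ := hμ
  have hP' := hP
  rw [h4] at hP'
  have hden := den_of h1 h2 h3 hP'
  have hsq : Integrable (fun x => ‖x‖ ^ 2) μ := by
    rw [h4, integrable_withDensity_iff_integrable_smul' h2.ennreal_ofReal
      (Filter.Eventually.of_forall fun x => ENNReal.ofReal_lt_top)]
    refine (Pool.Agent.H776.TP.den_mom hden 2).congr (Filter.Eventually.of_forall fun x => ?_)
    simp only [ENNReal.toReal_ofReal (h1 x), smul_eq_mul, mul_comm]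
  have e : power (r * M) μ = Pool.Agent.H776.TP.pn (Pool.Agent.H776.TP.en r M n) μ :=
    Pool.Agent.H776.TP.power_eq r M μ
  rw [e]
  exact Pool.Agent.H776.TP.cov_pn _ hsq h

/-- KLS from the weak inequalities for the powers -/
theorem kp_of_powers {n : ℕ} {μ : Measure (Euc n)} (hμ : LogConcave μ) {D B : ℕ} {C : ℝ}
    (hC : 0 < C) (H : ∀ N, 0 < N → WeakKLS D B C (power N μ)) :
    Pool.Agent.H776.KP μ ((D + 1) * C) := by
  intro s hs hcov f B' L' hf
  obtain ⟨M, hM, hk⟩ := Pool.Agent.H776.TP.count D B n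
  have h1 := H ((D + 1) * M) (Nat.mul_pos (Nat.succ_pos D) hM) s hs (varLe_power hμ hcov (D + 1) M)
  have h2 := poincare_of_modulo hμ hk (by positivity : 0 ≤ C * s) h1
    (testFunction_iff.2 ⟨B', L', hf⟩)
  rw [mul_assoc ((D : ℝ) + 1) C s]
  exact h2

theorem kls_of_powers {n : ℕ} {μ : Measure (Euc n)} (hμ : LogConcave μ) {D B : ℕ} {C : ℝ}
    (hC : 0 < C) (H : ∀ N, 0 < N → WeakKLS D B C (power N μ)) :
    KLS (1 / 14 / Real.sqrt ((D + 1) * C)) μ := by
  have h := kp_of_powers hμ hC H
  obtain ⟨hP, g, h1, h2, h3, h4⟩ := hμ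
  rw [h4] at hP h ⊢
  have hden := den_of h1 h2 h3 hP
  refine kls_of_kp hden (by positivity) ?_
  rw [nm_of_mass hden.mass]
  exact h

/-- log-concavity of the powers -/
theorem logConcave_power {n : ℕ} {μ : Measure (Euc n)} (hμ : LogConcave μ) (N : ℕ) :
    LogConcave (power N μ) := by
  obtain ⟨hP, g, h1, h2, h3, h4⟩ := hμ
  have hP' := hP
  rw [h4] at hP'
  have hden := den_of h1 h2 h3 hP'
  have hint : Integrable g := by simpa using Pool.Agent.H776.TP.den_mom hden 0
  have e1 : power N μ = Pool.Agent.H776.TP.pn (finProdFinEquiv : Fin N × Fin n ≃ _) μ := rfl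
  have hd := Pool.Agent.H776.TP.den_tw (finProdFinEquiv : Fin N × Fin n ≃ _) hden
  rw [e1]
  refine ⟨inferInstance, Pool.Agent.H776.TP.tw finProdFinEquiv g, hd.nonneg, hd.meas, hd.lc, ?_⟩
  rw [h4]
  exact Pool.Agent.H776.TP.pn_eq _ h1 h2 hint

theorem orthantNormal_gq {n : ℕ} {Q : Matrix (Fin n) (Fin n) ℝ} (hQ : Q.PosDef) :
    OrthantNormal (Pool.Agent.H776.nm (Pool.Agent.H776.gq Q)) := by
  classical
  refine ⟨(Pool.Agent.H776.wt_gq hQ).prob, Q, 1 / ∫ y, Pool.Agent.H776.gq Q y, hQ, ?_⟩
  unfold Pool.Agent.H776.nm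
  rw [← withDensity_indicator Pool.Agent.H776.orth_meas]
  congr 1
  funext x
  by_cases hx : ∀ i, 0 ≤ x i
  · rw [indicator_of_mem (show x ∈ {x : Euc n | ∀ i, 0 ≤ x i} from hx)]
    have e : Pool.Agent.H776.gq Q x =
        Real.exp (-(1 / 2) * ∑ i, ∑ j, Q i j * x i * x j) := by
      unfold Pool.Agent.H776.gq
      rw [if_pos hx]
      congr 1
      unfold Pool.Agent.H776.qf
      ring
    rw [← e, div_eq_mul_inv, mul_comm, one_div]
  · rw [indicator_of_notMem (show x ∉ {x : Euc n | ∀ i, 0 ≤ x i} from hx)]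
    have e : Pool.Agent.H776.gq Q x = 0 := by
      unfold Pool.Agent.H776.gq
      rw [if_neg hx]
    rw [e, zero_div, ENNReal.ofReal_zero]

/-- convexity of the quadratic form -/
theorem qf_convex {n : ℕ} {Q : Matrix (Fin n) (Fin n) ℝ} (hQ : Q.PosDef) (x y : Euc n) {t : ℝ}
    (ht : 0 ≤ t) (ht1 : t ≤ 1) :
    ∑ i, ∑ j, Q i j * ((1 - t) • x + t • y) i * ((1 - t) • x + t • y) j ≤
      (1 - t) * (∑ i, ∑ j, Q i j * x i * x j) + t * ∑ i, ∑ j, Q i j * y i * y j := by
  have h0 : 0 ≤ ∑ i, ∑ j, Q i j * (x i - y i) * (x j - y j) := by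
    have h1 := hQ.posSemidef.dotProduct_mulVec_nonneg (fun i => x i - y i)
    have e : star (fun i => x i - y i) ⬝ᵥ Q.mulVec (fun i => x i - y i) =
        ∑ i, ∑ j, Q i j * (x i - y i) * (x j - y j) := by
      simp only [dotProduct, Matrix.mulVec, star_trivial, Finset.mul_sum]
      exact Finset.sum_congr rfl fun i _ => Finset.sum_congr rfl fun j _ => by ring
    rwa [e] at h1
  have e1 : ∑ i, ∑ j, Q i j * ((1 - t) • x + t • y) i * ((1 - t) • x + t • y) j =
      (1 - t) * (∑ i, ∑ j, Q i j * x i * x j) + t * (∑ i, ∑ j, Q i j * y i * y j) -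
        t * (1 - t) * ∑ i, ∑ j, Q i j * (x i - y i) * (x j - y j) := by
    simp only [Finset.mul_sum, ← Finset.sum_add_distrib, ← Finset.sum_sub_distrib]
    refine Finset.sum_congr rfl fun i _ => Finset.sum_congr rfl fun j _ => ?_
    simp only [PiLp.add_apply, PiLp.smul_apply, smul_eq_mul]
    ring
  rw [e1]
  have := mul_nonneg (mul_nonneg ht (sub_nonneg.2 ht1)) h0
  linarith

theorem logConcave_of_orthantNormal {n : ℕ} {μ : Measure (Euc n)} (h : OrthantNormal μ) :
    LogConcave μ := by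
  classical
  obtain ⟨hP, Q, c, hQ, hμ⟩ := h
  have hm : MeasurableSet {x : Euc n | ∀ i, 0 ≤ x i} := Pool.Agent.H776.orth_meas
  have hc : 0 ≤ c := by
    by_contra hc
    have h0 : μ = 0 := by
      rw [hμ]
      have : (fun x : Euc n => ENNReal.ofReal (c * Real.exp (-(1 / 2) *
          ∑ i, ∑ j, Q i j * x i * x j))) = 0 := by
        funext x
        exact ENNReal.ofReal_of_nonpos (mul_nonpos_of_nonpos_of_nonneg (not_le.1 hc).le
          (Real.exp_pos _).le)
      rw [this, withDensity_zero]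
    have h1 := hP.measure_univ
    rw [h0] at h1
    simp at h1
  refine ⟨hP, ({x : Euc n | ∀ i, 0 ≤ x i}).indicator fun x => c * Real.exp (-(1 / 2) *
    ∑ i, ∑ j, Q i j * x i * x j), fun x => indicator_nonneg (fun x _ => by positivity) x, ?_, ?_, ?_⟩
  · exact (by fun_prop : Measurable fun x : Euc n => c * Real.exp (-(1 / 2) *
      ∑ i, ∑ j, Q i j * x i * x j)).indicator hm
  · intro x y t ht ht1
    by_cases hx : ∀ i, 0 ≤ x i
    · by_cases hy : ∀ i, 0 ≤ y i
      · have hxy : ∀ i, 0 ≤ ((1 - t) • x + t • y) i := fun i => by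
          simp only [PiLp.add_apply, PiLp.smul_apply, smul_eq_mul]
          exact add_nonneg (mul_nonneg (by linarith) (hx i)) (mul_nonneg ht.le (hy i))
        rw [indicator_of_mem (show x ∈ {x : Euc n | ∀ i, 0 ≤ x i} from hx),
          indicator_of_mem (show y ∈ {x : Euc n | ∀ i, 0 ≤ x i} from hy),
          indicator_of_mem (show (1 - t) • x + t • y ∈ {x : Euc n | ∀ i, 0 ≤ x i} from hxy)]
        rw [Real.mul_rpow hc (Real.exp_pos _).le, Real.mul_rpow hc (Real.exp_pos _).le]
        have e1 : c ^ (1 - t) * c ^ t = c := by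
          rcases hc.eq_or_lt with h | h
          · rw [← h, Real.zero_rpow ht.ne', mul_zero]
          · rw [← Real.rpow_add h, sub_add_cancel, Real.rpow_one]
        have h1 := qf_convex hQ x y ht.le ht1.le
        calc _ = (c ^ (1 - t) * c ^ t) * (Real.exp (-(1 / 2) * ∑ i, ∑ j, Q i j * x i * x j) ^ (1 - t) *
              Real.exp (-(1 / 2) * ∑ i, ∑ j, Q i j * y i * y j) ^ t) := by ring
          _ ≤ _ := by
            rw [e1, ← Real.exp_mul, ← Real.exp_mul, ← Real.exp_add]
            refine mul_le_mul_of_nonneg_left (Real.exp_le_exp.2 ?_) hc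
            linarith
      · rw [indicator_of_notMem (show y ∉ {x : Euc n | ∀ i, 0 ≤ x i} from hy),
          Real.zero_rpow ht.ne', mul_zero]
        exact indicator_nonneg (fun x _ => by positivity) _
    · rw [indicator_of_notMem (show x ∉ {x : Euc n | ∀ i, 0 ≤ x i} from hx),
        Real.zero_rpow (by linarith), zero_mul]
      exact indicator_nonneg (fun x _ => by positivity) _
  · rw [hμ, ← withDensity_indicator hm]
    congr 1
    funext x
    by_cases hx : x ∈ {x : Euc n | ∀ i, 0 ≤ x i}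
    · rw [indicator_of_mem hx, indicator_of_mem hx]
    · rw [indicator_of_notMem hx, indicator_of_notMem hx, ENNReal.ofReal_zero]

/-- the powers of Gaussian measures on orthants -/
theorem power_gq {n : ℕ} {Q : Matrix (Fin n) (Fin n) ℝ} (hQ : Q.PosDef) (N : ℕ) :
    OrthantNormal (power N (Pool.Agent.H776.nm (Pool.Agent.H776.gq Q))) := by
  have e1 : power N (Pool.Agent.H776.nm (Pool.Agent.H776.gq Q)) =
      Pool.Agent.H776.TP.pn (finProdFinEquiv : Fin N × Fin n ≃ _)
        (Pool.Agent.H776.nm (Pool.Agent.H776.gq Q)) := rfl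
  rw [e1, Pool.Agent.H776.TP.pn_nm _ (Pool.Agent.H776.wt_gq hQ), Pool.Agent.H776.TP.tw_gq]
  exact orthantNormal_gq (Pool.Agent.H776.TP.Qp_pd _ hQ)

theorem kp_zero {μ : Measure (Euc 0)} [IsProbabilityMeasure μ] {D : ℝ} (hD : 0 ≤ D) :
    Pool.Agent.H776.KP μ D := by
  intro s hs _ f B L hf
  have h1 : ∀ x : Euc 0, f x = f 0 := fun x => congrArg f (by ext i; exact i.elim0)
  have h2 : 0 ≤ D * s * ∫ x, ‖fderiv ℝ f x‖ ^ 2 ∂μ :=
    mul_nonneg (by positivity) (integral_nonneg fun x => by positivity)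
  have e1 : ∫ x, f x ^ 2 ∂μ = f 0 ^ 2 := by
    simp only [fun x => congrArg (· ^ 2) (h1 x)]
    rw [integral_const, probReal_univ, one_smul]
  have e2 : ∫ x, f x ∂μ = f 0 := by
    rw [integral_congr_ae (Filter.Eventually.of_forall h1), integral_const, probReal_univ, one_smul]
  rw [e1, e2]
  linarith

theorem main {D B : ℕ} {C : ℝ} (hC : 0 < C)
    (H : ∀ (n : ℕ) (μ : Measure (Euc n)), 0 < n → OrthantNormal μ → WeakKLS D B C μ) {n : ℕ}
    {μ : Measure (Euc n)} (hμ : LogConcave μ) : KLS (1 / 14 / Real.sqrt ((D + 1) * C)) μ := by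
  obtain ⟨hP, g, h1, h2, h3, h4⟩ := hμ
  rw [h4] at hP
  have hg := den_of h1 h2 h3 hP
  rw [h4]
  refine kls_of_kp hg (by positivity) ?_
  refine Pool.Agent.H776.kp_univ (by positivity) (fun m Q hQ => ?_) hg
  have hp := (Pool.Agent.H776.wt_gq hQ).prob
  rcases Nat.eq_zero_or_pos m with hm | hm
  · subst hm
    exact kp_zero (by positivity)
  · exact kp_of_powers (logConcave_of_orthantNormal (orthantNormal_gq hQ)) hC fun N hN =>
      H _ _ (Nat.mul_pos hN hm) (power_gq hQ N)

theorem weak_of_kls {n : ℕ} {μ : Measure (Euc n)} (hμ : LogConcave μ) {C : ℝ} (hC : 0 < C)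
    (h : KLS C μ) (D B : ℕ) : WeakKLS D B (4 / C ^ 2) μ := by
  have hP := hμ.1
  intro s hs hv
  refine ⟨fun _ _ => 0, fun _ => MemLp.zero', fun f hf hpol _ => ?_⟩
  obtain ⟨B', L', hf'⟩ := testFunction_iff.1 hf
  have h1 := kp_of_kls hC h s hs hv f B' L' hf'
  have h2 := hpol 0 (by simp)
  simp only [Pi.zero_apply, pow_zero, Finset.prod_const_one, mul_one] at h2
  rw [h2] at h1
  simpa using h1

/-- **The KLS conjecture is equivalent to a polynomial bound for the number of small eigenvalues.**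

(1) There is an absolute constant `c > 0` such that for all `D`, `B` and `C > 0`: if all centred Gaussian
measures conditioned to the positive orthants satisfy the Poincare inequality with the constant `C s`, `s`
the norm of the covariance matrix, modulo the polynomials of degree at most `D` and `B n^D` further
functions (`n ≥ 1` the dimension), then all log-concave probability measures satisfy the inequality of
Kannan, Lovasz and Simonovits with the constant `c / √((D + 1) C)`.

(2) The same measure by measure: it is enough that the products `μ ⊗ … ⊗ μ` of a log-concave measure `μ`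
satisfy the weak inequality, and then `μ` satisfies KLS with this constant.

(3) Nonasymptotic form: if the product of `(D + 1) M` copies of `μ` satisfies the Poincare inequality with
the constant `A` modulo the polynomials of degree at most `D` and `k < M^(D+1)` functions, then `μ`
satisfies the Poincare inequality with the constant `(D + 1) A`.

(4) So for all `D` and `B` the conjecture is equivalent to the weak inequality, for some `C`, for all
log-concave measures, and to the one for the Gaussian measures conditioned to the positive orthants. -/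
theorem result :
    (∃ c : ℝ, 0 < c ∧
      (∀ (D B : ℕ) (C : ℝ), 0 < C →
        (∀ (n : ℕ) (μ : Measure (Euc n)), 0 < n → OrthantNormal μ → WeakKLS D B C μ) →
        ∀ (n : ℕ) (μ : Measure (Euc n)), LogConcave μ → KLS (c / Real.sqrt ((D + 1) * C)) μ) ∧
      (∀ (D B : ℕ) (C : ℝ), 0 < C → ∀ (n : ℕ) (μ : Measure (Euc n)), LogConcave μ →
        (∀ N, 0 < N → WeakKLS D B C (power N μ)) → KLS (c / Real.sqrt ((D + 1) * C)) μ)) ∧
    (∀ (n : ℕ) (μ : Measure (Euc n)), LogConcave μ → ∀ D M k : ℕ, k < M ^ (D + 1) →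
      ∀ A : ℝ, 0 ≤ A → PoincareModulo D k A (power ((D + 1) * M) μ) →
        ∀ f : Euc n → ℝ, TestFunction f → ∫ x, f x ^ 2 ∂μ - (∫ x, f x ∂μ) ^ 2 ≤
          (D + 1) * A * ∫ x, ‖fderiv ℝ f x‖ ^ 2 ∂μ) ∧
    (∀ D B : ℕ,
      ((∃ C : ℝ, 0 < C ∧ ∀ (n : ℕ) (μ : Measure (Euc n)), LogConcave μ → KLS C μ) ↔
        ∃ C : ℝ, 0 < C ∧
          ∀ (n : ℕ) (μ : Measure (Euc n)), 0 < n → LogConcave μ → WeakKLS D B C μ) ∧
      ((∃ C : ℝ, 0 < C ∧ ∀ (n : ℕ) (μ : Measure (Euc n)), LogConcave μ → KLS C μ) ↔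
        ∃ C : ℝ, 0 < C ∧
          ∀ (n : ℕ) (μ : Measure (Euc n)), 0 < n → OrthantNormal μ → WeakKLS D B C μ)) ∧
    (∀ (n : ℕ) (μ : Measure (Euc n)), OrthantNormal μ → LogConcave μ) ∧
    (∀ (n N : ℕ) (μ : Measure (Euc n)), LogConcave μ → LogConcave (power N μ)) := by
  refine ⟨⟨1 / 14, by norm_num, fun D B C hC H n μ hμ => main hC H hμ,
    fun D B C hC n μ hμ H => kls_of_powers hμ hC H⟩,
    fun n μ hμ D M k hk A hA H f hf => poincare_of_modulo hμ hk hA H hf,
    fun D B => ⟨⟨fun ⟨C, hC, H⟩ => ⟨4 / C ^ 2, by positivity, fun n μ _ hμ =>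
      weak_of_kls hμ hC (H n μ hμ) D B⟩, fun ⟨C, hC, H⟩ => ⟨_, by positivity, fun n μ hμ =>
      main hC (fun n μ hn h => H n μ hn (logConcave_of_orthantNormal h)) hμ⟩⟩,
      ⟨fun ⟨C, hC, H⟩ => ⟨4 / C ^ 2, by positivity, fun n μ _ hμ =>
        weak_of_kls (logConcave_of_orthantNormal hμ) hC (H n μ (logConcave_of_orthantNormal hμ)) D B⟩,
        fun ⟨C, hC, H⟩ => ⟨_, by positivity, fun n μ hμ => main hC H hμ⟩⟩⟩,
    fun n μ h => logConcave_of_orthantNormal h, fun n N μ h => logConcave_power h N⟩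

end Pool.Agent.Results.MP_6d896a_gt.PolynomiallyManyEigenvalues
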