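import Pool.Agent.H776.Tilt

/-!
# KLS is equivalent to KLS for exponential tilts of measures with arbitrarily many symmetries

For log-concave probability measures with many symmetries (for instance 1-symmetric ones: invariant
under permutations and changes of signs of the coordinates) the inequality of Kannan, Lovasz and
Simonovits is known. We show that multiplying such measures with one exponential function
`exp ⟪a, x⟫` already gives the full conjecture, in the same dimension: for every `n` and every finite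
group `Γ` of linear isometries of `ℝⁿ`, if the inequality (in the form of the frozen statement) holds
with the constant `C` for the exponential tilts `exp ⟪a, x⟫ dν / Z` of all `Γ`-invariant log-concave
probability measures `ν` on `ℝⁿ`, then it holds with the constant `C / 28` for all log-concave
probability measures on `ℝⁿ`. Hence for every sequence of finite groups `Γ_n` of isometries of `ℝⁿ`
(e. g. `signedPerms n`) the conjecture is equivalent to its case of tilts of `Γ_n`-invariant measures.
In particular the known results for 1-symmetric measures (or measures invariant under reflection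
groups) do not extend to their exponential tilts unless the conjecture is true, and a localization
scheme (Eldan) which starts at a 1-symmetric measure produces measures which are as hard as all
log-concave measures.

Method. Let `ρ = exp (-G)` be a log-concave density, `G` `l`-Lipschitz (sup-convolution with
`exp (-l |x|)`). Let `a` be a vector with `|a - σ a| ≥ 4 l` for all `σ ≠ 1` in `Γ` and
`H (x) = max_σ (G (σ x - R a) + ⟪a, σ x⟫)`. Then `exp (-H)` is log-concave and `Γ`-invariant,
`exp (⟪a, x⟫ - H (x)) ≤ ρ (x - R a)`, with equality as soon as `l |x - σ x| ≤ ⟪a, x - σ x⟫` for all `σ`,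
which is the case for `x = R a + y`, `R ≥ R₀(y)`. So by dominated convergence the translates by `-R a` of
the tilts of `exp (-H)` converge to `ρ`, with their covariances, for `R → ∞`. The isoperimetric
inequality implies the Poincare inequality (coarea inequality and Cheeger's argument, modules
`H776.Coarea`, `H776.Cheeger`), which passes to the limit, and the Poincare inequality implies the
isoperimetric inequality for all measurable sets (Ledoux), module `Q289/LD` of the starting files.
-/

set_option autoImplicit false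

namespace Pool.Agent.Results.MP_6d896a_gt.TiltsOfInvariantMeasures

open MeasureTheory Set
open scoped ENNReal InnerProductSpace

/-- Euclidean space of dimension `n` -/
abbrev Euc (n : ℕ) : Type := EuclideanSpace ℝ (Fin n)

/-- linear isometries of `ℝⁿ` -/
abbrev Iso (n : ℕ) : Type := Euc n ≃ₗᵢ[ℝ] Euc n

/-- `Γ` is a finite group of linear isometries of `ℝⁿ` -/
structure IsFiniteGroup {n : ℕ} (Γ : Set (Iso n)) : Prop where
  finite : Γ.Finite
  one : LinearIsometryEquiv.refl ℝ (Euc n) ∈ Γ
  mul : ∀ σ ∈ Γ, ∀ τ ∈ Γ, σ.trans τ ∈ Γ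
  inv : ∀ σ ∈ Γ, σ.symm ∈ Γ

/-- log-concave probability measures: probability measures with a density `g ≥ 0` with
`g x ^ (1 - t) * g y ^ t ≤ g ((1 - t) x + t y)` -/
def LogConcave {n : ℕ} (μ : Measure (Euc n)) : Prop :=
  IsProbabilityMeasure μ ∧ ∃ g : Euc n → ℝ, (∀ x, 0 ≤ g x) ∧ Measurable g ∧
    (∀ x y, ∀ t : ℝ, 0 < t → t < 1 → g x ^ (1 - t) * g y ^ t ≤ g ((1 - t) • x + t • y)) ∧
    μ = volume.withDensity fun x => ENNReal.ofReal (g x)

/-- `μ` is an exponential tilt of a `Γ`-invariant log-concave probability measure `ν`: it has the density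
`exp ⟪a, x⟫ / ∫ exp ⟪a, y⟫ dν(y)` with respect to `ν` -/
def TiltOfInvariant {n : ℕ} (Γ : Set (Iso n)) (μ : Measure (Euc n)) : Prop :=
  ∃ (ν : Measure (Euc n)) (a : Euc n), LogConcave ν ∧ (∀ σ ∈ Γ, ν.map σ = ν) ∧
    Integrable (fun x => Real.exp ⟪a, x⟫_ℝ) ν ∧ μ = ν.tilted fun x => ⟪a, x⟫_ℝ

/-- the inequality of Kannan, Lovasz and Simonovits with the constant `C`: if all variances in
directions of length one are at most `s` then `(C / √s) min(μ S, μ Sᶜ) ≤ μ⁺(S)` for all measurable `S` -/
def KLS {n : ℕ} (C : ℝ) (μ : Measure (Euc n)) : Prop :=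
  ∀ s : ℝ, 0 < s →
    (∀ θ : Euc n, ‖θ‖ = 1 → ProbabilityTheory.variance (fun x => inner ℝ x θ) μ ≤ s) →
    ∀ S : Set (Euc n), MeasurableSet S →
      ENNReal.ofReal (C / Real.sqrt s) * min (μ S) (μ Sᶜ) ≤
        Filter.liminf (fun ε : ℝ => (μ (Metric.thickening ε S) - μ S) / ENNReal.ofReal ε)
          (nhdsWithin 0 (Set.Ioi 0))

/-- the permutations and changes of signs of the coordinates -/
def signedPerms (n : ℕ) : Set (Iso n) :=
  {σ | ∃ p : Equiv.Perm (Fin n), ∀ x i, |σ x i| = |x (p i)|}

/-- the inequality holds with the constant `C` for all log-concave probability measures on `ℝⁿ` -/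
def KLSAll (n : ℕ) (C : ℝ) : Prop := ∀ μ : Measure (Euc n), LogConcave μ → KLS C μ

/-- the inequality holds with the constant `C` for all exponential tilts of `Γ`-invariant log-concave
probability measures on `ℝⁿ` -/
def KLSTilts {n : ℕ} (Γ : Set (Iso n)) (C : ℝ) : Prop :=
  ∀ μ : Measure (Euc n), TiltOfInvariant Γ μ → KLS C μ

theorem group_signedPerms (n : ℕ) : IsFiniteGroup (signedPerms n) := by
  refine ⟨?_, ⟨1, fun x i => rfl⟩, ?_, ?_⟩
  · have hfin : ({-1, 0, 1} : Set ℝ).Finite := by
      refine (Set.finite_singleton _).insert _ |>.insert _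
    have : Finite ({-1, 0, 1} : Set ℝ) := hfin
    have hmem : ∀ (σ : signedPerms n) (i j : Fin n),
        (σ : Iso n) (EuclideanSpace.single i 1) j ∈ ({-1, 0, 1} : Set ℝ) := by
      intro σ i j
      obtain ⟨p, hp⟩ := σ.2
      have h1 := hp (EuclideanSpace.single i 1) j
      rw [PiLp.single_apply] at h1
      split_ifs at h1
      · rw [abs_one] at h1
        rcases eq_or_eq_neg_of_abs_eq h1 with h2 | h2
        · rw [h2]; simp
        · rw [h2]; simp
      · rw [abs_zero, abs_eq_zero] at h1
        rw [h1]; simp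
    have hF : Finite (signedPerms n) := by
      refine Finite.of_injective (β := Fin n → Fin n → ({-1, 0, 1} : Set ℝ))
        (fun σ i j => ⟨_, hmem σ i j⟩) ?_
      intro σ τ h
      have h1 : ∀ i j, (σ : Iso n) (EuclideanSpace.single i 1) j =
          (τ : Iso n) (EuclideanSpace.single i 1) j := by
        intro i j
        have := congrFun (congrFun h i) j
        exact congrArg Subtype.val this
      ext1
      have h2 : (σ : Iso n).toLinearEquiv.toLinearMap = (τ : Iso n).toLinearEquiv.toLinearMap := by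
        refine (EuclideanSpace.basisFun (Fin n) ℝ).toBasis.ext fun i => ?_
        rw [OrthonormalBasis.coe_toBasis, EuclideanSpace.basisFun_apply]
        ext j
        exact h1 i j
      ext1 x
      exact LinearMap.congr_fun h2 x
    exact Set.toFinite _
  · rintro σ ⟨p, hp⟩ τ ⟨q, hq⟩
    refine ⟨q.trans p, fun x i => ?_⟩
    rw [LinearIsometryEquiv.trans_apply, hq, hp]
    rfl
  · rintro σ ⟨p, hp⟩
    refine ⟨p⁻¹, fun x i => ?_⟩
    have h1 := hp (σ.symm x) (p⁻¹ i)
    rw [LinearIsometryEquiv.apply_symm_apply] at h1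
    have h4 : p (p⁻¹ i) = i := p.apply_symm_apply i
    rw [h4] at h1
    exact h1.symm

theorem den_of {n : ℕ} {g : Euc n → ℝ} (h1 : ∀ x, 0 ≤ g x) (h2 : Measurable g)
    (h3 : ∀ x y, ∀ t : ℝ, 0 < t → t < 1 → g x ^ (1 - t) * g y ^ t ≤ g ((1 - t) • x + t • y))
    (hp : IsProbabilityMeasure (volume.withDensity fun x => ENNReal.ofReal (g x))) :
    Q289.LD.Den g := by
  refine ⟨h1, h2, h3, ?_⟩
  have h4 : (volume.withDensity fun x => ENNReal.ofReal (g x)) univ = 1 := measure_univ
  rw [withDensity_apply _ MeasurableSet.univ, Measure.restrict_univ] at h4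
  rw [integral_eq_lintegral_of_nonneg_ae (Filter.Eventually.of_forall h1)
    h2.aestronglyMeasurable, h4, ENNReal.toReal_one]

theorem nm_of_mass {n : ℕ} {g : Euc n → ℝ} (h : ∫ x, g x = 1) :
    Pool.Agent.H776.nm g = volume.withDensity fun x => ENNReal.ofReal (g x) := by
  unfold Pool.Agent.H776.nm
  simp only [h, div_one]

/-- from the isoperimetric inequality to the Poincare inequality -/
theorem kp_of_kls {n : ℕ} {μ : Measure (Euc n)} [IsProbabilityMeasure μ] {C : ℝ} (hC : 0 < C)
    (h : KLS C μ) : Pool.Agent.H776.KP μ (4 / C ^ 2) := by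
  intro s hs hcov
  have h1 : Pool.Agent.H776.Iso μ (C / Real.sqrt s) := fun S hS => h s hs hcov S hS
  have h2 := Pool.Agent.H776.poi_of_iso (div_pos hC (Real.sqrt_pos.2 hs)) h1
  have e : 4 / (C / Real.sqrt s) ^ 2 = 4 / C ^ 2 * s := by
    rw [div_pow, Real.sq_sqrt hs.le]
    field_simp
  rwa [e] at h2

theorem kls_of_kp {n : ℕ} {g : Euc n → ℝ} (hg : Q289.LD.Den g) {C : ℝ} (hC : 0 < C)
    (h : Pool.Agent.H776.KP (Pool.Agent.H776.nm g) (4 / C ^ 2)) :
    KLS (1 / 28 * C) (volume.withDensity fun x => ENNReal.ofReal (g x)) := by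
  intro s hs hcov S hS
  rw [nm_of_mass hg.mass] at h
  have h1 := h s hs hcov
  have h2 := Pool.Agent.H776.iso_of_poi hg rfl (by positivity) h1 S hS
  have e : 1 / 14 / Real.sqrt (4 / C ^ 2 * s) = 1 / 28 * C / Real.sqrt s := by
    rw [Real.sqrt_mul (by positivity), Real.sqrt_div (by norm_num), Real.sqrt_sq hC.le,
      show (4 : ℝ) = 2 ^ 2 by norm_num, Real.sqrt_sq (by norm_num)]
    have := Real.sqrt_pos.2 hs
    field_simp
    norm_num
  rw [e] at h2
  exact h2

theorem tilted_nm {n : ℕ} {F : Euc n → ℝ} {a : Euc n} (hF : Pool.Agent.H776.LCf F)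
    (hpos : 0 < ∫ x, F x) :
    (Pool.Agent.H776.nm F).tilted (fun x => ⟪a, x⟫_ℝ) =
      Pool.Agent.H776.nm fun x => Real.exp ⟪a, x⟫_ℝ * F x := by
  have hme : Measurable fun x : Euc n => Real.exp ⟪a, x⟫_ℝ := by fun_prop
  have e1 : ∫ x, Real.exp ⟪a, x⟫_ℝ ∂(Pool.Agent.H776.nm F) =
      (∫ x, Real.exp ⟪a, x⟫_ℝ * F x) / ∫ x, F x :=
    Pool.Agent.H776.integral_nm hF.nonneg hF.meas _
  unfold Measure.tilted
  rw [e1]
  unfold Pool.Agent.H776.nm
  rw [← withDensity_mul _ (hF.meas.div_const _).ennreal_ofReal (hme.div_const _).ennreal_ofReal]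
  congr 1
  funext x
  rw [Pi.mul_apply, ← ENNReal.ofReal_mul (div_nonneg (hF.nonneg x) hpos.le)]
  congr 1
  have := hpos.ne'
  by_cases h0 : ∫ x, Real.exp ⟪a, x⟫_ℝ * F x = 0
  · rw [h0]; simp
  · field_simp

theorem map_nm {n : ℕ} {F : Euc n → ℝ} (σ : Euc n ≃ₗᵢ[ℝ] Euc n) (h : ∀ x, F (σ x) = F x) :
    (Pool.Agent.H776.nm F).map σ = Pool.Agent.H776.nm F := by
  unfold Pool.Agent.H776.nm
  have hmp : MeasurePreserving σ volume volume := σ.measurePreserving
  ext S hS
  rw [Measure.map_apply σ.continuous.measurable hS, withDensity_apply _ hS,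
    withDensity_apply _ (hS.preimage σ.continuous.measurable)]
  have h1 := hmp.setLIntegral_comp_preimage_emb σ.toHomeomorph.measurableEmbedding
    (fun y => ENNReal.ofReal (F y / ∫ y, F y)) S
  simp only [h] at h1
  exact h1

/-- **the tilts of `Γ`-invariant measures are as hard as all log-concave measures** -/
theorem main {n : ℕ} {Γ : Set (Iso n)} (hΓ : IsFiniteGroup Γ) {C : ℝ} (hC : 0 < C)
    (H : ∀ μ : Measure (Euc n), TiltOfInvariant Γ μ → KLS C μ) (μ : Measure (Euc n))
    (hμ : LogConcave μ) : KLS (1 / 28 * C) μ := by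
  obtain ⟨hP, g, h1, h2, h3, h4⟩ := hμ
  rw [h4] at hP
  have hg := den_of h1 h2 h3 hP
  rw [h4]
  refine kls_of_kp hg hC ?_
  let Γ' : Subgroup (Iso n) :=
    { carrier := Γ
      one_mem' := hΓ.one
      mul_mem' := fun {σ τ} h1 h2 => hΓ.mul τ h2 σ h1
      inv_mem' := fun {σ} h1 => hΓ.inv σ h1 }
  have hfin : Finite Γ' := hΓ.finite
  refine Pool.Agent.H776.tilt_kp Γ' (by positivity) (fun F a hF hFpos hinv hFi hW => ?_) hg
  have hFp : 0 < ∫ x, F x := by
    rw [integral_pos_iff_support_of_nonneg hF.nonneg hFi]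
    have : Function.support F = univ := by
      ext x
      simp [(hFpos x).ne']
    rw [this]
    exact (Measure.measure_univ_pos.2 (NeZero.ne _))
  have hprob := hW.prob
  refine kp_of_kls hC (H _ ⟨Pool.Agent.H776.nm F, a, ⟨?_, ?_⟩, fun σ hσ => map_nm σ (hinv σ hσ), ?_,
    (tilted_nm hF hFp).symm⟩)
  · refine ⟨?_⟩
    unfold Pool.Agent.H776.nm
    rw [withDensity_apply _ MeasurableSet.univ, Measure.restrict_univ,
      ← ofReal_integral_eq_lintegral_ofReal (hFi.div_const _)
        (Filter.Eventually.of_forall fun x => div_nonneg (hF.nonneg x) hFp.le), integral_div,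
      div_self hFp.ne', ENNReal.ofReal_one]
  · refine ⟨fun x => F x / ∫ y, F y, fun x => div_nonneg (hF.nonneg x) hFp.le,
      hF.meas.div_const _, fun x y t ht ht1 => ?_, rfl⟩
    have h5 := hF.lc x y t ht ht1
    rw [Real.div_rpow (hF.nonneg x) hFp.le, Real.div_rpow (hF.nonneg y) hFp.le, div_mul_div_comm,
      ← Real.rpow_add hFp, sub_add_cancel, Real.rpow_one]
    exact div_le_div_of_nonneg_right h5 hFp.le
  · unfold Pool.Agent.H776.nm
    have hme : Measurable fun x : Euc n => Real.exp ⟪a, x⟫_ℝ := by fun_prop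
    rw [integrable_withDensity_iff_integrable_smul' (hF.meas.div_const _).ennreal_ofReal
      (Filter.Eventually.of_forall fun x => ENNReal.ofReal_lt_top)]
    refine (hW.integrable.div_const (∫ y, F y)).congr (Filter.Eventually.of_forall fun x => ?_)
    simp only
    rw [ENNReal.toReal_ofReal (div_nonneg (hF.nonneg x) hFp.le), smul_eq_mul]
    ring

theorem logConcave_tilt {n : ℕ} {Γ : Set (Iso n)} {μ : Measure (Euc n)}
    (h : TiltOfInvariant Γ μ) : LogConcave μ := by
  obtain ⟨ν, a, ⟨hP, g, h1, h2, h3, h4⟩, -, h6, h7⟩ := h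
  have hme : Measurable fun x : Euc n => Real.exp ⟪a, x⟫_ℝ := by fun_prop
  have hpr : IsProbabilityMeasure μ := by
    rw [h7]
    exact isProbabilityMeasure_tilted h6
  set Z := ∫ x, Real.exp ⟪a, x⟫_ℝ ∂ν with hZ
  have hZ0 : 0 ≤ Z := integral_nonneg fun x => (Real.exp_pos _).le
  refine ⟨hpr, fun x => g x * (Real.exp ⟪a, x⟫_ℝ / Z), fun x => mul_nonneg (h1 x)
    (div_nonneg (Real.exp_pos _).le hZ0), h2.mul (hme.div_const _), fun x y t ht ht1 => ?_, ?_⟩
  · have e1 : (Real.exp ⟪a, x⟫_ℝ / Z) ^ (1 - t) * (Real.exp ⟪a, y⟫_ℝ / Z) ^ t =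
        Real.exp ⟪a, (1 - t) • x + t • y⟫_ℝ / Z := by
      rw [Real.div_rpow (Real.exp_pos _).le hZ0, Real.div_rpow (Real.exp_pos _).le hZ0,
        div_mul_div_comm, ← Real.exp_mul, ← Real.exp_mul, ← Real.exp_add, inner_add_right,
        real_inner_smul_right, real_inner_smul_right]
      congr 1
      · congr 1
        ring
      · rcases hZ0.eq_or_lt with h | h
        · rw [← h, Real.zero_rpow ht.ne', mul_zero]
        · rw [← Real.rpow_add h, sub_add_cancel, Real.rpow_one]
    change _ ≤ g ((1 - t) • x + t • y) * (Real.exp ⟪a, (1 - t) • x + t • y⟫_ℝ / Z)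
    rw [Real.mul_rpow (h1 x) (div_nonneg (Real.exp_pos _).le hZ0),
      Real.mul_rpow (h1 y) (div_nonneg (Real.exp_pos _).le hZ0), ← e1]
    calc g x ^ (1 - t) * (Real.exp ⟪a, x⟫_ℝ / Z) ^ (1 - t) *
          (g y ^ t * (Real.exp ⟪a, y⟫_ℝ / Z) ^ t)
        = g x ^ (1 - t) * g y ^ t * ((Real.exp ⟪a, x⟫_ℝ / Z) ^ (1 - t) *
          (Real.exp ⟪a, y⟫_ℝ / Z) ^ t) := by ring
      _ ≤ _ := mul_le_mul_of_nonneg_right (h3 x y t ht ht1) (by positivity)
  · rw [h7]
    unfold Measure.tilted
    rw [← hZ, h4, ← withDensity_mul _ h2.ennreal_ofReal (hme.div_const _).ennreal_ofReal]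
    congr 1
    funext x
    rw [Pi.mul_apply, ← ENNReal.ofReal_mul (h1 x)]

/-- **The KLS conjecture is equivalent to its case of exponential tilts of `Γ`-invariant measures.**
(1) There is an absolute constant `c > 0` such that for all `n`, all finite groups `Γ` of linear
isometries of `ℝⁿ` and all `C > 0`: if the inequality of Kannan, Lovasz and Simonovits holds with the
constant `C` for all exponential tilts of `Γ`-invariant log-concave probability measures on `ℝⁿ` then it
holds with the constant `c C` for all log-concave probability measures on `ℝⁿ`. (2) So for every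
sequence of finite groups `Γ_n` of isometries of `ℝⁿ` the conjecture is equivalent to the conjecture for
the exponential tilts of `Γ_n`-invariant log-concave probability measures. (3) This applies to the groups
`signedPerms n` of permutations and changes of signs of the coordinates. -/
theorem result :
    (∃ c : ℝ, 0 < c ∧ ∀ (n : ℕ) (Γ : Set (Iso n)), IsFiniteGroup Γ → ∀ C : ℝ, 0 < C →
      KLSTilts Γ C → KLSAll n (c * C)) ∧
    (∀ Γ : (n : ℕ) → Set (Iso n), (∀ n, IsFiniteGroup (Γ n)) →
      ((∃ C : ℝ, 0 < C ∧ ∀ n, KLSAll n C) ↔ ∃ C : ℝ, 0 < C ∧ ∀ n, KLSTilts (Γ n) C)) ∧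
    ∀ n : ℕ, IsFiniteGroup (signedPerms n) := by
  refine ⟨⟨1 / 28, by norm_num, fun n Γ hΓ C hC H μ hμ => main hΓ hC H μ hμ⟩,
    fun Γ hΓ => ⟨fun ⟨C, hC, H⟩ => ⟨C, hC, fun n μ hμ => H n μ (logConcave_tilt hμ)⟩,
      fun ⟨C, hC, H⟩ => ⟨1 / 28 * C, by positivity, fun n μ hμ => ?_⟩⟩, group_signedPerms⟩
  exact main (hΓ n) hC (H n) μ hμ

end Pool.Agent.Results.MP_6d896a_gt.TiltsOfInvariantMeasures
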